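import Pool.Agent.U408.JP.Words

set_option autoImplicit false

namespace Pool.Agent.U408.JP

/-- The Jacobi–Perron map `(α,β) ↦ ({β/α},{1/α})`. -/
noncomputable def jpT (x : ℝ × ℝ) : ℝ × ℝ := (Int.fract (x.2 / x.1), Int.fract (1 / x.1))

/-- The first digit `⌊β/α⌋`. -/
noncomputable def jpA (x : ℝ × ℝ) : ℕ := ⌊x.2 / x.1⌋₊

/-- The second digit `⌊1/α⌋`. -/
noncomputable def jpB (x : ℝ × ℝ) : ℕ := ⌊1 / x.1⌋₊

/-- The Jacobi–Perron convergents, index shifted by two. -/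
noncomputable def conv (x : ℝ × ℝ) : ℕ → ℕ × ℕ × ℕ
  | 0 => (0, 1, 0)
  | 1 => (0, 0, 1)
  | 2 => (1, 0, 0)
  | n + 3 => jpB (jpT^[n] x) • conv x (n + 2) + jpA (jpT^[n] x) • conv x (n + 1) + conv x n

structure Adm (x : ℝ × ℝ) : Prop where
  pos1 : 0 < x.1
  lt1 : x.1 < 1
  pos2 : 0 < x.2
  lt2 : x.2 < 1
  ind : ∀ c0 c1 c2 : ℚ, (c0 : ℝ) + c1 * x.1 + c2 * x.2 = 0 → c0 = 0 ∧ c1 = 0 ∧ c2 = 0

lemma one_div_eq {x : ℝ × ℝ} (h : Adm x) : 1 / x.1 = jpB x + (jpT x).2 := by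
  have h0 : 0 ≤ 1 / x.1 := by have := h.pos1; positivity
  simp only [jpB, jpT]
  rw [← Int.self_sub_floor, ← natCast_floor_eq_intCast_floor h0]; ring

lemma div_eq {x : ℝ × ℝ} (h : Adm x) : x.2 / x.1 = jpA x + (jpT x).1 := by
  have h0 : 0 ≤ x.2 / x.1 := by have := h.pos1; have := h.pos2; positivity
  simp only [jpA, jpT]
  rw [← Int.self_sub_floor, ← natCast_floor_eq_intCast_floor h0]; ring

lemma Adm.T {x : ℝ × ℝ} (h : Adm x) : Adm (jpT x) := by
  have e1 := one_div_eq h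
  have e2 := div_eq h
  have hx := h.pos1
  have f1 : 1 = x.1 * (jpB x + (jpT x).2) := by rw [← e1]; field_simp
  have f2 : x.2 = x.1 * (jpA x + (jpT x).1) := by rw [← e2]; field_simp
  have ind : ∀ c0 c1 c2 : ℚ, (c0 : ℝ) + c1 * (jpT x).1 + c2 * (jpT x).2 = 0 →
      c0 = 0 ∧ c1 = 0 ∧ c2 = 0 := by
    intro c0 c1 c2 hc
    have h1 : ((c2 : ℚ) : ℝ) + ((c0 - c1 * jpA x - c2 * jpB x : ℚ) : ℝ) * x.1
        + (c1 : ℝ) * x.2 = 0 := by
      push_cast
      have : (jpT x).1 * x.1 = x.2 - jpA x * x.1 := by linarith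
      have h' : (jpT x).2 * x.1 = 1 - jpB x * x.1 := by linarith
      linear_combination x.1 * hc - (c1 : ℝ) * this - (c2 : ℝ) * h'
    obtain ⟨k1, k2, k3⟩ := h.ind _ _ _ h1
    subst k1 k3
    simp at k2
    exact ⟨k2, rfl, rfl⟩
  have n1 : 0 ≤ (jpT x).1 := Int.fract_nonneg _
  have n2 : 0 ≤ (jpT x).2 := Int.fract_nonneg _
  refine ⟨lt_of_le_of_ne n1 ?_, Int.fract_lt_one _, lt_of_le_of_ne n2 ?_, Int.fract_lt_one _,
    ind⟩
  · intro h0
    have := ind 0 1 0 (by push_cast; rw [← h0]; ring)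
    simp at this
  · intro h0
    have := ind 0 0 1 (by push_cast; rw [← h0]; ring)
    simp at this

lemma Adm.iter {x : ℝ × ℝ} (h : Adm x) (n : ℕ) : Adm (jpT^[n] x) := by
  induction n with
  | zero => exact h
  | succ n ih => rw [Function.iterate_succ_apply']; exact ih.T

lemma jpB_pos {x : ℝ × ℝ} (h : Adm x) : 1 ≤ jpB x := by
  rw [jpB, Nat.one_le_floor_iff]
  rw [le_div_iff₀ h.pos1]
  linarith [h.lt1]

lemma jpA_le {x : ℝ × ℝ} (h : Adm x) : jpA x ≤ jpB x := by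
  refine Nat.floor_mono ?_
  exact div_le_div_of_nonneg_right h.lt2.le h.pos1.le

lemma jp_eq {x : ℝ × ℝ} (h : Adm x) (e : jpA x = jpB x) : (jpT x).1 ≤ (jpT x).2 := by
  have e1 := one_div_eq h
  have e2 := div_eq h
  have : x.2 / x.1 ≤ 1 / x.1 := div_le_div_of_nonneg_right h.lt2.le h.pos1.le
  have e3 : (jpA x : ℝ) = jpB x := by exact_mod_cast e
  linarith

lemma jpA_pos {x : ℝ × ℝ} (h : Adm x) (e : x.1 ≤ x.2) : 1 ≤ jpA x := by
  rw [jpA, Nat.one_le_floor_iff, le_div_iff₀ h.pos1]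
  linarith

noncomputable def dg (x : ℝ × ℝ) : ℕ × ℕ := (jpA x, jpB x)

noncomputable def digits (x : ℝ × ℝ) (n : ℕ) : List (ℕ × ℕ) :=
  (List.range n).map (fun i => dg (jpT^[i] x))

@[simp] lemma digits_zero (x : ℝ × ℝ) : digits x 0 = [] := rfl

lemma digits_succ (x : ℝ × ℝ) (n : ℕ) : digits x (n + 1) = dg x :: digits (jpT x) n := by
  simp [digits, List.range_succ_eq_map, List.map_map, Function.comp_def]

lemma digits_succ' (x : ℝ × ℝ) (n : ℕ) :
    digits x (n + 1) = digits x n ++ [dg (jpT^[n] x)] := by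
  simp [digits, List.range_succ]

lemma vld_digits : ∀ (n : ℕ) (x : ℝ × ℝ), Adm x → Vld (digits x n)
  | 0, _, _ => trivial
  | n + 1, x, h => by
    rw [digits_succ]
    refine ⟨jpB_pos h, jpA_le h, fun e => ?_, vld_digits n _ h.T⟩
    have h1 := jp_eq h e
    cases n with
    | zero => simp
    | succ n =>
      rw [digits_succ, ev_cons]
      simp only
      have h2 := jpA_pos h.T h1
      have h3 : 1 * (ev (digits (jpT (jpT x)) n)).1 ≤
        (dg (jpT x)).1 * (ev (digits (jpT (jpT x)) n)).1 := Nat.mul_le_mul_right _ h2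
      omega

def c1 (t : List (ℕ × ℕ)) : ℕ × ℕ × ℕ := act t (0, 1, 0)
def c2 (t : List (ℕ × ℕ)) : ℕ × ℕ × ℕ := act t (0, 0, 1)

lemma act_cons {R : Type*} [Semiring R] (d : ℕ × ℕ) (t : List (ℕ × ℕ)) (u : R × R × R) :
    act (d :: t) u = stp d (act t u) := rfl

lemma act_append {R : Type*} [Semiring R] (s t : List (ℕ × ℕ)) (u : R × R × R) :
    act (s ++ t) u = act s (act t u) := by
  simp [act]

lemma c1_cons (d : ℕ × ℕ) (t : List (ℕ × ℕ)) :
    c1 (d :: t) = (d.2 * (c1 t).1 + (c1 t).2.2, (c1 t).1, d.1 * (c1 t).1 + (c1 t).2.1) := by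
  simp [c1, act, stp]

lemma c2_cons (d : ℕ × ℕ) (t : List (ℕ × ℕ)) :
    c2 (d :: t) = (d.2 * (c2 t).1 + (c2 t).2.2, (c2 t).1, d.1 * (c2 t).1 + (c2 t).2.1) := by
  simp [c2, act, stp]

lemma act_lin {R : Type*} [CommSemiring R] (u : R × R × R) : ∀ (t : List (ℕ × ℕ)),
    (act t u).1 = u.1 * (ev t).1 + u.2.1 * (c1 t).1 + u.2.2 * (c2 t).1 ∧
    (act t u).2.1 = u.1 * (ev t).2.1 + u.2.1 * (c1 t).2.1 + u.2.2 * (c2 t).2.1 ∧
    (act t u).2.2 = u.1 * (ev t).2.2 + u.2.1 * (c1 t).2.2 + u.2.2 * (c2 t).2.2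
  | [] => by
    simp [act, c1, c2]
  | d :: t => by
    obtain ⟨h1, h2, h3⟩ := act_lin u t
    rw [act_cons, ev_cons, c1_cons, c2_cons]
    simp only [stp]
    rw [h1, h2, h3]
    push_cast
    refine ⟨by ring, by ring, by ring⟩

lemma ev_append (t : List (ℕ × ℕ)) (d : ℕ × ℕ) :
    ev (t ++ [d]) = d.2 • ev t + d.1 • c2 t + c1 t := by
  rw [ev, act_append]
  have h : act [d] ((1, 0, 0) : ℕ × ℕ × ℕ) = (d.2, 1, d.1) := by simp [act, stp]
  rw [h]
  obtain ⟨h1, h2, h3⟩ := act_lin (R := ℕ) (d.2, 1, d.1) t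
  refine Prod.ext ?_ (Prod.ext ?_ ?_)
  · rw [h1]; simp; ring
  · rw [h2]; simp; ring
  · rw [h3]; simp; ring

lemma c1_append (t : List (ℕ × ℕ)) (d : ℕ × ℕ) : c1 (t ++ [d]) = c2 t := by
  rw [c1, act_append]
  simp [act, stp, c2]

lemma c2_append (t : List (ℕ × ℕ)) (d : ℕ × ℕ) : c2 (t ++ [d]) = ev t := by
  rw [c2, act_append]
  simp [act, stp, ev]

lemma conv_eq (x : ℝ × ℝ) : ∀ n : ℕ, conv x n = c1 (digits x n) ∧
    conv x (n + 1) = c2 (digits x n) ∧ conv x (n + 2) = ev (digits x n)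
  | 0 => by simp [conv, c1, c2, act, ev]
  | n + 1 => by
    obtain ⟨h1, h2, h3⟩ := conv_eq x n
    rw [digits_succ', c1_append, c2_append, ev_append]
    refine ⟨h2, h3, ?_⟩
    rw [← h1, ← h2, ← h3]
    rw [conv]
    simp [dg]

lemma det_act : ∀ (t : List (ℕ × ℕ)),
    ((ev t).1 : ℤ) * ((c1 t).2.1 * (c2 t).2.2 - (c2 t).2.1 * (c1 t).2.2)
    - (c1 t).1 * ((ev t).2.1 * (c2 t).2.2 - (c2 t).2.1 * (ev t).2.2)
    + (c2 t).1 * ((ev t).2.1 * (c1 t).2.2 - (c1 t).2.1 * (ev t).2.2) = 1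
  | [] => by simp [c1, c2, act]
  | d :: t => by
    have h := det_act t
    rw [ev_cons, c1_cons, c2_cons]
    simp only
    push_cast
    linear_combination h

/-- real action on the iterate -/
lemma act_iter : ∀ (n : ℕ) (x : ℝ × ℝ), Adm x →
    0 < (act (digits x n) ((1 : ℝ), (jpT^[n] x).1, (jpT^[n] x).2)).1 ∧
    (act (digits x n) ((1 : ℝ), (jpT^[n] x).1, (jpT^[n] x).2)).2.1 =
      x.1 * (act (digits x n) ((1 : ℝ), (jpT^[n] x).1, (jpT^[n] x).2)).1 ∧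
    (act (digits x n) ((1 : ℝ), (jpT^[n] x).1, (jpT^[n] x).2)).2.2 =
      x.2 * (act (digits x n) ((1 : ℝ), (jpT^[n] x).1, (jpT^[n] x).2)).1
  | 0, x, _ => by simp [act]
  | n + 1, x, h => by
    obtain ⟨h1, h2, h3⟩ := act_iter n (jpT x) h.T
    rw [digits_succ, Function.iterate_succ_apply, act_cons]
    simp only [stp]
    rw [h2, h3]
    have e1 := one_div_eq h
    have e2 := div_eq h
    have hx := h.pos1
    have f1 : 1 = x.1 * (jpB x + (jpT x).2) := by rw [← e1]; field_simp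
    have f2 : x.2 = x.1 * (jpA x + (jpT x).1) := by rw [← e2]; field_simp
    have hT := h.T.pos2
    set D := (act (digits (jpT x) n) ((1 : ℝ), (jpT^[n] (jpT x)).1, (jpT^[n] (jpT x)).2)).1
      with hD
    refine ⟨?_, ?_, ?_⟩
    · simp only [dg]; positivity
    · simp only [dg]
      linear_combination D * f1
    · simp only [dg]
      have f3 : ((jpA x : ℝ) + (jpT x).1) = x.2 * (jpB x + (jpT x).2) := by
        have hne : x.1 ≠ 0 := hx.ne'
        have : x.1 * ((jpA x : ℝ) + (jpT x).1) = x.1 * (x.2 * (jpB x + (jpT x).2)) := by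
          rw [← f2]
          linear_combination x.2 * f1
        exact mul_left_cancel₀ hne this
      linear_combination D * f3

end Pool.Agent.U408.JP
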