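import Pool.Agent.U408.JP.Algo

set_option autoImplicit false

namespace Pool.Agent.U408.JP

structure Rec (q P a b : ℕ → ℝ) : Prop where
  hb : ∀ n, 1 ≤ b n
  ha : ∀ n, 0 ≤ a n
  hab : ∀ n, a n ≤ b n
  hq : ∀ n, q (n + 3) = b n * q (n + 2) + a n * q (n + 1) + q n
  hP : ∀ n, P (n + 3) = b n * P (n + 2) + a n * P (n + 1) + P n
  pos : ∀ n, 0 < q n
  mono : ∀ n, q n ≤ q (n + 1)
  hX : ∀ n, |P (n + 1) / q (n + 1) - P n / q n| ≤ 1

noncomputable def dd (q P : ℕ → ℝ) (n : ℕ) : ℝ := |P (n + 1) / q (n + 1) - P n / q n|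
noncomputable def ee (q P : ℕ → ℝ) (n : ℕ) : ℝ := max (dd q P n) (dd q P (n + 1))

section
variable {q P a b : ℕ → ℝ}

lemma ee_nonneg (n : ℕ) : 0 ≤ ee q P n := le_max_of_le_left (abs_nonneg _)

lemma dd_step (h : Rec q P a b) (n : ℕ) :
    dd q P (n + 2) * q (n + 3) ≤ (a n * q (n + 1) + 2 * q n) * ee q P n := by
  have hq1 := h.pos n
  have hq2 := h.pos (n + 1)
  have hq3 := h.pos (n + 2)
  have hq4 := h.pos (n + 3)
  have key : (P (n + 3) / q (n + 3) - P (n + 2) / q (n + 2)) * q (n + 3) =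
      -(a n * q (n + 1)) * (P (n + 2) / q (n + 2) - P (n + 1) / q (n + 1))
      - q n * ((P (n + 2) / q (n + 2) - P (n + 1) / q (n + 1))
        + (P (n + 1) / q (n + 1) - P n / q n)) := by
    have e1 : (P (n + 3) / q (n + 3) - P (n + 2) / q (n + 2)) * q (n + 3) =
        P (n + 3) - P (n + 2) / q (n + 2) * q (n + 3) := by
      field_simp
    rw [e1, h.hP, h.hq]
    field_simp
    ring
  have h1 : dd q P (n + 1) ≤ ee q P n := le_max_right _ _
  have h0 : dd q P n ≤ ee q P n := le_max_left _ _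
  have e2 : dd q P (n + 2) * q (n + 3) =
      |(P (n + 3) / q (n + 3) - P (n + 2) / q (n + 2)) * q (n + 3)| := by
    rw [abs_mul, abs_of_pos hq4]; rfl
  rw [e2, key]
  have ha := h.ha n
  calc |-(a n * q (n + 1)) * (P (n + 2) / q (n + 2) - P (n + 1) / q (n + 1))
      - q n * ((P (n + 2) / q (n + 2) - P (n + 1) / q (n + 1))
        + (P (n + 1) / q (n + 1) - P n / q n))|
      ≤ |-(a n * q (n + 1)) * (P (n + 2) / q (n + 2) - P (n + 1) / q (n + 1))|
        + |q n * ((P (n + 2) / q (n + 2) - P (n + 1) / q (n + 1))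
        + (P (n + 1) / q (n + 1) - P n / q n))| := abs_sub _ _
    _ ≤ a n * q (n + 1) * dd q P (n + 1) + q n * (dd q P (n + 1) + dd q P n) := by
        have t1 : |-(a n * q (n + 1)) * (P (n + 2) / q (n + 2) - P (n + 1) / q (n + 1))|
            = a n * q (n + 1) * dd q P (n + 1) := by
          rw [abs_mul, abs_neg, abs_of_nonneg (by positivity : 0 ≤ a n * q (n + 1))]; rfl
        have t2 : |q n * ((P (n + 2) / q (n + 2) - P (n + 1) / q (n + 1))
            + (P (n + 1) / q (n + 1) - P n / q n))| ≤ q n * (dd q P (n + 1) + dd q P n) := by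
          rw [abs_mul, abs_of_pos hq1]
          exact mul_le_mul_of_nonneg_left (abs_add_le _ _) hq1.le
        rw [t1]; linarith
    _ ≤ (a n * q (n + 1) + 2 * q n) * ee q P n := by
        have t3 : a n * q (n + 1) * dd q P (n + 1) ≤ a n * q (n + 1) * ee q P n :=
          mul_le_mul_of_nonneg_left h1 (by positivity)
        have t4 : q n * (dd q P (n + 1) + dd q P n) ≤ q n * (ee q P n + ee q P n) :=
          mul_le_mul_of_nonneg_left (by linarith) hq1.le
        linarith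

lemma dd_le (h : Rec q P a b) (n : ℕ) : dd q P (n + 2) ≤ ee q P n := by
  have h1 := dd_step h n
  have hq1 := h.pos n
  have hq3 := h.pos (n + 2)
  have hq4 := h.pos (n + 3)
  have m1 := h.mono n
  have m2 := h.mono (n + 1)
  have hb := h.hb n
  have hE := ee_nonneg (q := q) (P := P) n
  have h2 : a n * q (n + 1) + 2 * q n ≤ q (n + 3) := by
    rw [h.hq]
    have : 1 * q (n + 2) ≤ b n * q (n + 2) := mul_le_mul_of_nonneg_right hb hq3.le
    linarith
  have h3 : dd q P (n + 2) * q (n + 3) ≤ ee q P n * q (n + 3) := by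
    refine h1.trans ?_
    rw [mul_comm (ee q P n)]
    exact mul_le_mul_of_nonneg_right h2 hE
  exact le_of_mul_le_mul_right h3 hq4

lemma dd_good (h : Rec q P a b) (n : ℕ) (hg : 5 / 4 * q n ≤ q (n + 2)) :
    dd q P (n + 2) ≤ 13 / 14 * ee q P n := by
  have h1 := dd_step h n
  have hq1 := h.pos n
  have hq2 := h.pos (n + 1)
  have hq3 := h.pos (n + 2)
  have hq4 := h.pos (n + 3)
  have m1 := h.mono n
  have m2 := h.mono (n + 1)
  have hb := h.hb n
  have hE := ee_nonneg (q := q) (P := P) n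
  have h2 : a n * q (n + 1) + 2 * q n ≤ 13 / 14 * q (n + 3) := by
    rw [h.hq]
    have t1 : 1 * q (n + 2) ≤ b n * q (n + 2) := mul_le_mul_of_nonneg_right hb hq3.le
    have t2 : a n * q (n + 1) ≤ b n * q (n + 2) :=
      mul_le_mul (h.hab n) m2 hq2.le (by linarith)
    linarith
  have h3 : dd q P (n + 2) * q (n + 3) ≤ (13 / 14 * ee q P n) * q (n + 3) := by
    refine h1.trans ?_
    have := mul_le_mul_of_nonneg_right h2 hE
    linarith
  exact le_of_mul_le_mul_right h3 hq4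

lemma ee_anti (h : Rec q P a b) (n : ℕ) : ee q P (n + 1) ≤ ee q P n :=
  max_le (le_max_right _ _) (dd_le h n)

lemma ee_good2 (h : Rec q P a b) (n : ℕ) (hg : 5 / 4 * q n ≤ q (n + 2))
    (hg' : 5 / 4 * q (n + 1) ≤ q (n + 3)) : ee q P (n + 2) ≤ 13 / 14 * ee q P n := by
  refine max_le (dd_good h n hg) ?_
  have h1 := dd_good h (n + 1) hg'
  have h2 := ee_anti h n
  linarith

lemma good_of_bad (h : Rec q P a b) (n : ℕ) (hb : q (n + 2) < 5 / 4 * q n) :
    5 / 4 * q (n + 1) ≤ q (n + 3) ∧ 5 / 4 * q (n + 2) ≤ q (n + 4) := by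
  have hq1 := h.pos n
  have hq2 := h.pos (n + 1)
  have hq3 := h.pos (n + 2)
  have m1 := h.mono n
  have m2 := h.mono (n + 1)
  have m4 := h.mono (n + 3)
  have hb1 := h.hb n
  have ha1 := h.ha n
  have t1 : 1 * q (n + 2) ≤ b n * q (n + 2) := mul_le_mul_of_nonneg_right hb1 hq3.le
  have t2 : 0 ≤ a n * q (n + 1) := by positivity
  have e := h.hq n
  constructor <;> linarith

lemma ee_four (h : Rec q P a b) (n : ℕ) : ee q P (n + 4) ≤ 13 / 14 * ee q P n := by
  have a0 := ee_anti h n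
  have a1 := ee_anti h (n + 1)
  have a2 := ee_anti h (n + 2)
  have a3 := ee_anti h (n + 3)
  by_cases g0 : 5 / 4 * q n ≤ q (n + 2)
  · by_cases g1 : 5 / 4 * q (n + 1) ≤ q (n + 3)
    · have := ee_good2 h n g0 g1
      linarith
    · obtain ⟨g2, g3⟩ := good_of_bad h (n + 1) (not_le.1 g1)
      have := ee_good2 h (n + 2) g2 g3
      linarith
  · obtain ⟨g1, g2⟩ := good_of_bad h n (not_le.1 g0)
    have := ee_good2 h (n + 1) g1 g2
    linarith

lemma ee_pow (h : Rec q P a b) (k : ℕ) : ∀ n, 4 * k ≤ n → ee q P n ≤ (13 / 14 : ℝ) ^ k := by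
  induction k with
  | zero =>
    intro n _
    simp only [pow_zero]
    exact max_le (h.hX n) (h.hX (n + 1))
  | succ k ih =>
    intro n hn
    obtain ⟨m, rfl⟩ : ∃ m, n = m + 4 := ⟨n - 4, by omega⟩
    have h1 := ih m (by omega)
    have h2 := ee_four h m
    rw [pow_succ]
    linarith

lemma close_abs (h : Rec q P a b) (n : ℕ) {w0 w1 w2 x : ℝ} (h0 : 0 < w0) (h1 : 0 ≤ w1)
    (h2 : 0 ≤ w2)
    (hx : x * (w0 * q (n + 2) + w1 * q n + w2 * q (n + 1)) =
      w0 * P (n + 2) + w1 * P n + w2 * P (n + 1)) :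
    |x - P (n + 2) / q (n + 2)| ≤ 2 * ee q P n := by
  have hq1 := h.pos n
  have hq2 := h.pos (n + 1)
  have hq3 := h.pos (n + 2)
  set D := w0 * q (n + 2) + w1 * q n + w2 * q (n + 1) with hD
  have hDpos : 0 < D := by positivity
  have hE := ee_nonneg (q := q) (P := P) n
  have k1 : dd q P (n + 1) ≤ ee q P n := le_max_right _ _
  have k0 : dd q P n ≤ ee q P n := le_max_left _ _
  have key : (x - P (n + 2) / q (n + 2)) * D =
      -(w2 * q (n + 1)) * (P (n + 2) / q (n + 2) - P (n + 1) / q (n + 1))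
      - (w1 * q n) * ((P (n + 2) / q (n + 2) - P (n + 1) / q (n + 1))
        + (P (n + 1) / q (n + 1) - P n / q n)) := by
    rw [sub_mul, hx, hD]
    field_simp
    ring
  have e2 : |x - P (n + 2) / q (n + 2)| * D = |(x - P (n + 2) / q (n + 2)) * D| := by
    rw [abs_mul, abs_of_pos hDpos]
  have : |x - P (n + 2) / q (n + 2)| * D ≤ (2 * ee q P n) * D := by
    rw [e2, key]
    calc _ ≤ |-(w2 * q (n + 1)) * (P (n + 2) / q (n + 2) - P (n + 1) / q (n + 1))|
        + |(w1 * q n) * ((P (n + 2) / q (n + 2) - P (n + 1) / q (n + 1))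
        + (P (n + 1) / q (n + 1) - P n / q n))| := abs_sub _ _
      _ ≤ w2 * q (n + 1) * dd q P (n + 1) + w1 * q n * (dd q P (n + 1) + dd q P n) := by
        have t1 : |-(w2 * q (n + 1)) * (P (n + 2) / q (n + 2) - P (n + 1) / q (n + 1))|
            = w2 * q (n + 1) * dd q P (n + 1) := by
          rw [abs_mul, abs_neg, abs_of_nonneg (by positivity : 0 ≤ w2 * q (n + 1))]; rfl
        have t2 : |(w1 * q n) * ((P (n + 2) / q (n + 2) - P (n + 1) / q (n + 1))
            + (P (n + 1) / q (n + 1) - P n / q n))| ≤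
            w1 * q n * (dd q P (n + 1) + dd q P n) := by
          rw [abs_mul, abs_of_nonneg (by positivity : 0 ≤ w1 * q n)]
          exact mul_le_mul_of_nonneg_left (abs_add_le _ _) (by positivity)
        rw [t1]; linarith
      _ ≤ (2 * ee q P n) * D := by
        have t3 : w2 * q (n + 1) * dd q P (n + 1) ≤ w2 * q (n + 1) * ee q P n :=
          mul_le_mul_of_nonneg_left k1 (by positivity)
        have t4 : w1 * q n * (dd q P (n + 1) + dd q P n) ≤
            w1 * q n * (ee q P n + ee q P n) :=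
          mul_le_mul_of_nonneg_left (by linarith) (by positivity)
        have t5 : 0 ≤ w0 * q (n + 2) * ee q P n := by positivity
        have t6 : 0 ≤ w2 * q (n + 1) * ee q P n := by positivity
        rw [hD]; nlinarith
  exact le_of_mul_le_mul_right this hDpos

end

lemma conv_mono0 {x : ℝ × ℝ} (h : Adm x) (n : ℕ) : (conv x n).1 ≤ (conv x (n + 1)).1 := by
  match n with
  | 0 => simp [conv]
  | 1 => simp [conv]
  | n + 2 =>
    have h1 := jpB_pos (h.iter n)
    rw [conv]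
    simp only [Prod.fst_add, Prod.smul_fst, smul_eq_mul]
    have : 1 * (conv x (n + 2)).1 ≤ jpB (jpT^[n] x) * (conv x (n + 2)).1 :=
      Nat.mul_le_mul_right _ h1
    omega

lemma conv_mono {x : ℝ × ℝ} (h : Adm x) : Monotone (fun n => (conv x n).1) :=
  monotone_nat_of_le_succ (conv_mono0 h)

lemma conv_bound {x : ℝ × ℝ} (h : Adm x) (n : ℕ) :
    1 ≤ (conv x (n + 2)).1 ∧ (conv x (n + 2)).2.1 ≤ (conv x (n + 2)).1 ∧
      (conv x (n + 2)).2.2 ≤ (conv x (n + 2)).1 := by
  rw [(conv_eq x n).2.2]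
  exact vld_bound _ (vld_digits n x h)

lemma conv_unbdd {x : ℝ × ℝ} (h : Adm x) (n : ℕ) : n ≤ (conv x (n + 4)).1 := by
  induction n with
  | zero => simp
  | succ n ih =>
    have h1 := jpB_pos (h.iter (n + 2))
    have e : conv x (n + 1 + 4) = jpB (jpT^[n + 2] x) • conv x (n + 4) +
      jpA (jpT^[n + 2] x) • conv x (n + 3) + conv x (n + 2) := by
        show conv x ((n + 2) + 3) = _
        rw [conv]
    rw [e]
    simp only [Prod.fst_add, Prod.smul_fst, smul_eq_mul]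
    have h2 := (conv_bound h n).1
    have : 1 * (conv x (n + 4)).1 ≤ jpB (jpT^[n + 2] x) * (conv x (n + 4)).1 :=
      Nat.mul_le_mul_right _ h1
    omega

/-- growth of denominators -/
lemma conv_growth {x : ℝ × ℝ} (h : Adm x) (n : ℕ) :
    (conv x (n + 3)).1 ≤ 3 * jpB (jpT^[n] x) * (conv x (n + 2)).1 := by
  have h1 := jpB_pos (h.iter n)
  have h2 := jpA_le (h.iter n)
  have m1 := conv_mono0 h n
  have m2 := conv_mono0 h (n + 1)
  rw [conv]
  simp only [Prod.fst_add, Prod.smul_fst, smul_eq_mul]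
  have t1 : jpA (jpT^[n] x) * (conv x (n + 1)).1 ≤ jpB (jpT^[n] x) * (conv x (n + 2)).1 :=
    Nat.mul_le_mul h2 m2
  have t2 : 1 * (conv x n).1 ≤ jpB (jpT^[n] x) * (conv x (n + 2)).1 :=
    Nat.mul_le_mul h1 (m1.trans m2)
  have : 3 * jpB (jpT^[n] x) * (conv x (n + 2)).1 =
    jpB (jpT^[n] x) * (conv x (n + 2)).1 + jpB (jpT^[n] x) * (conv x (n + 2)).1
    + jpB (jpT^[n] x) * (conv x (n + 2)).1 := by ring
  omega

lemma unit_sub {a b c d : ℕ} (h1 : 1 ≤ b) (h2 : a ≤ b) (h3 : 1 ≤ d) (h4 : c ≤ d) :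
    |(c : ℝ) / d - a / b| ≤ 1 := by
  have e1 : (0 : ℝ) ≤ (a : ℝ) / b := by positivity
  have e2 : (a : ℝ) / b ≤ 1 := by
    rw [div_le_one (by exact_mod_cast h1)]; exact_mod_cast h2
  have e3 : (0 : ℝ) ≤ (c : ℝ) / d := by positivity
  have e4 : (c : ℝ) / d ≤ 1 := by
    rw [div_le_one (by exact_mod_cast h3)]; exact_mod_cast h4
  rw [abs_le]; constructor <;> linarith

lemma rec1 {x : ℝ × ℝ} (h : Adm x) :
    Rec (fun n => ((conv x (n + 2)).1 : ℝ)) (fun n => ((conv x (n + 2)).2.1 : ℝ))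
      (fun n => (jpA (jpT^[n + 2] x) : ℝ)) (fun n => (jpB (jpT^[n + 2] x) : ℝ)) where
  hb n := by exact_mod_cast jpB_pos (h.iter (n + 2))
  ha n := by positivity
  hab n := by exact_mod_cast jpA_le (h.iter (n + 2))
  hq n := by
    have : conv x (n + 3 + 2) = jpB (jpT^[n + 2] x) • conv x (n + 2 + 2) +
      jpA (jpT^[n + 2] x) • conv x (n + 1 + 2) + conv x (n + 2) := by
        show conv x ((n + 2) + 3) = _
        rw [conv]
    simp only [this, Prod.fst_add, Prod.smul_fst, smul_eq_mul]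
    push_cast; ring
  hP n := by
    have : conv x (n + 3 + 2) = jpB (jpT^[n + 2] x) • conv x (n + 2 + 2) +
      jpA (jpT^[n + 2] x) • conv x (n + 1 + 2) + conv x (n + 2) := by
        show conv x ((n + 2) + 3) = _
        rw [conv]
    simp only [this, Prod.fst_add, Prod.smul_fst, Prod.snd_add, Prod.smul_snd, smul_eq_mul]
    push_cast; ring
  pos n := by
    have := (conv_bound h n).1
    exact_mod_cast this
  mono n := by exact_mod_cast conv_mono0 h (n + 2)
  hX n := unit_sub (conv_bound h n).1 (conv_bound h n).2.1 (conv_bound h (n + 1)).1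
    (conv_bound h (n + 1)).2.1

lemma rec2 {x : ℝ × ℝ} (h : Adm x) :
    Rec (fun n => ((conv x (n + 2)).1 : ℝ)) (fun n => ((conv x (n + 2)).2.2 : ℝ))
      (fun n => (jpA (jpT^[n + 2] x) : ℝ)) (fun n => (jpB (jpT^[n + 2] x) : ℝ)) where
  hb n := by exact_mod_cast jpB_pos (h.iter (n + 2))
  ha n := by positivity
  hab n := by exact_mod_cast jpA_le (h.iter (n + 2))
  hq n := (rec1 h).hq n
  hP n := by
    have : conv x (n + 3 + 2) = jpB (jpT^[n + 2] x) • conv x (n + 2 + 2) +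
      jpA (jpT^[n + 2] x) • conv x (n + 1 + 2) + conv x (n + 2) := by
        show conv x ((n + 2) + 3) = _
        rw [conv]
    simp only [this, Prod.snd_add, Prod.smul_snd, smul_eq_mul]
    push_cast; ring
  pos n := (rec1 h).pos n
  mono n := (rec1 h).mono n
  hX n := unit_sub (conv_bound h n).1 (conv_bound h n).2.2 (conv_bound h (n + 1)).1
    (conv_bound h (n + 1)).2.2

/-- Uniform convergence of the convergents. -/
theorem close_unif (ε : ℝ) (hε : 0 < ε) : ∃ M : ℕ, ∀ x : ℝ × ℝ, Adm x → ∀ m, M ≤ m →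
    |x.1 - ((conv x (m + 2)).2.1 : ℝ) / (conv x (m + 2)).1| ≤ ε ∧
    |x.2 - ((conv x (m + 2)).2.2 : ℝ) / (conv x (m + 2)).1| ≤ ε := by
  obtain ⟨k, hk⟩ := exists_pow_lt_of_lt_one (show 0 < ε / 2 by positivity)
    (show (13 / 14 : ℝ) < 1 by norm_num)
  refine ⟨4 * k + 2, fun x h m hm => ?_⟩
  obtain ⟨n, rfl⟩ : ∃ n, m = n + 2 := ⟨m - 2, by omega⟩
  obtain ⟨a1, a2, a3⟩ := act_iter (n + 2) x h
  obtain ⟨l1, l2, l3⟩ := act_lin ((1 : ℝ), (jpT^[n + 2] x).1, (jpT^[n + 2] x).2)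
    (digits x (n + 2))
  obtain ⟨c1e, c2e, c3e⟩ := conv_eq x (n + 2)
  rw [← c1e, ← c2e, ← c3e] at l1 l2 l3
  simp only at l1 l2 l3
  rw [l1, l2] at a2
  rw [l1, l3] at a3
  have hA := h.iter (n + 2)
  have p1 := ee_pow (rec1 h) k n (by omega)
  have p2 := ee_pow (rec2 h) k n (by omega)
  constructor
  · have := close_abs (rec1 h) n (w0 := 1) (w1 := (jpT^[n + 2] x).1) (w2 := (jpT^[n + 2] x).2)
      (x := x.1) one_pos hA.pos1.le hA.pos2.le a2.symm
    linarith
  · have := close_abs (rec2 h) n (w0 := 1) (w1 := (jpT^[n + 2] x).1) (w2 := (jpT^[n + 2] x).2)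
      (x := x.2) one_pos hA.pos1.le hA.pos2.le a3.symm
    linarith

end Pool.Agent.U408.JP
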