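import Pool.Agent.U408.JP.Words

set_option autoImplicit false

namespace Pool.Agent.U408.JP

lemma spacing (s : Finset ℤ) (m : ℤ) (hm : 0 < m) (L : ℝ) (hL : 0 ≤ L)
    (h : ∀ i ∈ s, ∀ j ∈ s, ((i - j : ℤ) : ℝ) ≤ L ∧ m ∣ i - j) :
    (s.card : ℝ) ≤ L / m + 1 := by
  have hm' : (0 : ℝ) < m := by exact_mod_cast hm
  rcases s.eq_empty_or_nonempty with he | hne
  · subst he
    simp
    positivity
  · set i0 := s.min' hne with hi0
    have hcard : s.card ≤ (Finset.Icc (0 : ℤ) ⌊L / m⌋).card := by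
      refine Finset.card_le_card_of_injOn (fun i => (i - i0) / m) ?_ ?_
      · intro i hi
        have hi' : i ∈ s := hi
        have h1 : i0 ≤ i := s.min'_le i hi'
        obtain ⟨h2, h3⟩ := h i hi' i0 (s.min'_mem hne)
        obtain ⟨c, hc⟩ := h3
        simp only [Finset.coe_Icc, Set.mem_Icc]
        rw [hc, Int.mul_ediv_cancel_left _ hm.ne']
        constructor
        · have : 0 ≤ m * c := by rw [← hc]; omega
          exact nonneg_of_mul_nonneg_right this hm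
        · rw [Int.le_floor, le_div_iff₀ hm']
          rw [hc] at h2
          push_cast at h2
          linarith
      · intro i hi j hj hij
        have hi' : i ∈ s := hi
        have hj' : j ∈ s := hj
        obtain ⟨c, hc⟩ := (h i hi' i0 (s.min'_mem hne)).2
        obtain ⟨d, hd⟩ := (h j hj' i0 (s.min'_mem hne)).2
        simp only at hij
        rw [hc, hd, Int.mul_ediv_cancel_left _ hm.ne', Int.mul_ediv_cancel_left _ hm.ne'] at hij
        rw [hij] at hc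
        omega
    have h0 : (0 : ℤ) ≤ ⌊L / m⌋ := Int.floor_nonneg.2 (by positivity)
    rw [Int.card_Icc] at hcard
    have h1 : ((⌊L / m⌋ + 1 - 0).toNat : ℝ) = (⌊L / m⌋ : ℝ) + 1 := by
      have : ((⌊L / m⌋ + 1 - 0).toNat : ℤ) = ⌊L / m⌋ + 1 := by
        rw [Int.toNat_of_nonneg (by omega)]; ring
      exact_mod_cast this
    calc (s.card : ℝ) ≤ ((⌊L / m⌋ + 1 - 0).toNat : ℝ) := by exact_mod_cast hcard
      _ = (⌊L / m⌋ : ℝ) + 1 := h1
      _ ≤ L / m + 1 := by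
        have := Int.floor_le (L / m)
        linarith

lemma card_le_mul_image {α β : Type*} [DecidableEq β] (s : Finset α) (f : α → β) (B : ℝ)
    (h : ∀ b ∈ s.image f, ((s.filter (fun a => f a = b)).card : ℝ) ≤ B) :
    (s.card : ℝ) ≤ B * (s.image f).card := by
  rw [Finset.card_eq_sum_card_image f s]
  push_cast
  calc ∑ b ∈ s.image f, ((s.filter (fun a => f a = b)).card : ℝ)
      ≤ ∑ b ∈ s.image f, B := Finset.sum_le_sum h
    _ = B * (s.image f).card := by rw [Finset.sum_const, nsmul_eq_mul]; ring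

/-- The counting bound for a fixed short vector `(x,y)`. -/
lemma perz (W : Finset (ℕ × ℕ × ℕ)) (x y : ℤ) (n g : ℕ) (hn : x.natAbs = n) (hn1 : 1 ≤ n)
    (hy : y.natAbs ≤ n) (hg : Int.gcd x y = g) (X c1 c2 l Λ : ℝ)
    (hl0 : 0 ≤ l) (hΛ0 : 0 ≤ Λ)
    (h : ∀ v ∈ W, 1 ≤ v.1 ∧ (v.1 : ℝ) ≤ X ∧ |(v.2.1 : ℝ) / v.1 - c1| ≤ l / 2 ∧
      |(v.2.2 : ℝ) / v.1 - c2| ≤ l / 2 ∧ (v.1 : ℤ) ∣ x * v.2.2 - y * v.2.1 ∧ (g : ℤ) ∣ v.1)
    (hΛ : ∀ v ∈ W, ∀ v' ∈ W, (v.1 : ℝ) - v'.1 ≤ Λ) (hX0 : 0 ≤ X) :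
    (W.card : ℝ) ≤ (l * X * g / n + 1) * (Λ / g + 1) * (2 * l * n + 1) := by
  classical
  have hx0 : x ≠ 0 := by
    intro h0; rw [h0] at hn; simp at hn; omega
  have hg0 : 0 < g := by
    rw [← hg]
    exact Int.gcd_pos_of_ne_zero_left _ hx0
  have hgx : (g : ℤ) ∣ x := by rw [← hg]; exact Int.gcd_dvd_left ..
  have hgy : (g : ℤ) ∣ y := by rw [← hg]; exact Int.gcd_dvd_right ..
  have hxabs : |(x : ℝ)| = n := by
    rw [← hn]
    rw [Nat.cast_natAbs, Int.cast_abs]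
  have hyabs : |(y : ℝ)| ≤ n := by
    have : |(y : ℝ)| = y.natAbs := by
      rw [Nat.cast_natAbs, Int.cast_abs]
    rw [this]; exact_mod_cast hy
  have hn0 : (0 : ℝ) < n := by exact_mod_cast hn1
  have hg0' : (0 : ℝ) < g := by exact_mod_cast hg0
  set kf : ℕ × ℕ × ℕ → ℤ := fun v => (x * v.2.2 - y * v.2.1) / v.1 with hkf
  have hkeq : ∀ v ∈ W, (v.1 : ℤ) * kf v = x * v.2.2 - y * v.2.1 := by
    intro v hv
    exact Int.mul_ediv_cancel' (h v hv).2.2.2.2.1
  -- image of k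
  have hkimg : ((W.image kf).card : ℝ) ≤ 2 * l * n + 1 := by
    have := spacing (W.image kf) 1 one_pos (2 * l * n) (by positivity) ?_
    · simpa using this
    · intro i hi j hj
      rw [Finset.mem_image] at hi hj
      obtain ⟨v, hv, rfl⟩ := hi
      obtain ⟨w, hw, rfl⟩ := hj
      refine ⟨?_, one_dvd _⟩
      have hkreal : ∀ v ∈ W, |(kf v : ℝ) - (x * c2 - y * c1)| ≤ l * n := by
        intro v hv
        obtain ⟨h1, h2, h3, h4, h5, h6⟩ := h v hv
        have hv0 : (0 : ℝ) < v.1 := by exact_mod_cast h1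
        have e : (v.1 : ℝ) * kf v = x * v.2.2 - y * v.2.1 := by exact_mod_cast hkeq v hv
        have e2 : (kf v : ℝ) = x * ((v.2.2 : ℝ) / v.1) - y * ((v.2.1 : ℝ) / v.1) := by
          field_simp
          linarith
        have e3 : (kf v : ℝ) - (x * c2 - y * c1) =
            x * ((v.2.2 : ℝ) / v.1 - c2) - y * ((v.2.1 : ℝ) / v.1 - c1) := by
          rw [e2]; ring
        rw [e3]
        calc |x * ((v.2.2 : ℝ) / v.1 - c2) - y * ((v.2.1 : ℝ) / v.1 - c1)|
            ≤ |x * ((v.2.2 : ℝ) / v.1 - c2)| + |y * ((v.2.1 : ℝ) / v.1 - c1)| := abs_sub _ _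
          _ = |(x : ℝ)| * |(v.2.2 : ℝ) / v.1 - c2| + |(y : ℝ)| * |(v.2.1 : ℝ) / v.1 - c1| := by
            rw [abs_mul, abs_mul]
          _ ≤ n * (l / 2) + n * (l / 2) := by
            rw [hxabs]
            have := mul_le_mul hyabs h3 (abs_nonneg _) hn0.le
            have := mul_le_mul_of_nonneg_left h4 hn0.le
            linarith
          _ = l * n := by ring
      have a1 := abs_le.1 (hkreal v hv)
      have a2 := abs_le.1 (hkreal w hw)
      push_cast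
      linarith [a1.2, a2.1]
  -- fibres
  have hfib : ∀ k ∈ W.image kf, ((W.filter (fun v => kf v = k)).card : ℝ) ≤
      (l * X * g / n + 1) * (Λ / g + 1) := by
    intro k _
    set W1 := W.filter (fun v => kf v = k) with hW1
    have hqimg : ((W1.image (fun v => (v.1 : ℤ))).card : ℝ) ≤ Λ / g + 1 := by
      have := spacing (W1.image (fun v => (v.1 : ℤ))) g (by exact_mod_cast hg0) Λ hΛ0 ?_
      · simpa using this
      · intro i hi j hj
        rw [Finset.mem_image] at hi hj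
        obtain ⟨v, hv, rfl⟩ := hi
        obtain ⟨w, hw, rfl⟩ := hj
        have hv' := (Finset.mem_filter.1 hv).1
        have hw' := (Finset.mem_filter.1 hw).1
        refine ⟨?_, dvd_sub (h v hv').2.2.2.2.2 (h w hw').2.2.2.2.2⟩
        push_cast
        exact hΛ v hv' w hw'
    have hfib2 : ∀ qq ∈ W1.image (fun v => (v.1 : ℤ)),
        ((W1.filter (fun v => (v.1 : ℤ) = qq)).card : ℝ) ≤ l * X * g / n + 1 := by
      intro qq _
      set W2 := W1.filter (fun v => (v.1 : ℤ) = qq) with hW2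
      have hcard : W2.card = (W2.image (fun v => (v.2.1 : ℤ))).card := by
        rw [Finset.card_image_of_injOn]
        intro v hv w hw hvw
        have hv2 : v ∈ W2 := hv
        have hw2 : w ∈ W2 := hw
        rw [hW2, Finset.mem_filter, hW1, Finset.mem_filter] at hv2 hw2
        obtain ⟨⟨hv3, hvk⟩, hvq⟩ := hv2
        obtain ⟨⟨hw3, hwk⟩, hwq⟩ := hw2
        have e1 := hkeq v hv3
        have e2 := hkeq w hw3
        rw [hvk, hvq] at e1
        rw [hwk, hwq] at e2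
        simp only at hvw
        rw [hvw] at e1
        have e3 : x * (v.2.2 : ℤ) = x * w.2.2 := by linarith
        have e4 := mul_left_cancel₀ hx0 e3
        refine Prod.ext ?_ (Prod.ext ?_ ?_)
        · have : (v.1 : ℤ) = w.1 := by rw [hvq, hwq]
          exact_mod_cast this
        · exact_mod_cast hvw
        · exact_mod_cast e4
      rw [hcard]
      obtain ⟨x', hx'⟩ := hgx
      obtain ⟨y', hy'⟩ := hgy
      have hcop : IsCoprime x' y' := by
        rw [Int.isCoprime_iff_gcd_eq_one]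
        have : Int.gcd x y = g * Int.gcd x' y' := by
          rw [hx', hy', Int.gcd_mul_left]; simp
        rw [hg] at this
        have h3 : g * 1 = g * Int.gcd x' y' := by rw [mul_one]; exact this
        exact (Nat.eq_of_mul_eq_mul_left hg0 h3).symm
      have hx'0 : x' ≠ 0 := by
        rintro rfl
        exact hx0 (by rw [hx']; ring)
      have := spacing (W2.image (fun v => (v.2.1 : ℤ))) |x'| (abs_pos.2 hx'0) (l * X)
        (by positivity) ?_
      · refine this.trans (le_of_eq ?_)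
        have e1 : ((|x'| : ℤ) : ℝ) * g = n := by
          rw [← hxabs, hx']
          push_cast
          rw [abs_mul, abs_of_pos hg0']
          ring
        rw [← e1]
        have : ((|x'| : ℤ) : ℝ) ≠ 0 := by
          have := abs_pos.2 hx'0
          exact_mod_cast this.ne'
        field_simp
      · intro i hi j hj
        rw [Finset.mem_image] at hi hj
        obtain ⟨v, hv2, rfl⟩ := hi
        obtain ⟨w, hw2, rfl⟩ := hj
        rw [hW2, Finset.mem_filter, hW1, Finset.mem_filter] at hv2 hw2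
        obtain ⟨⟨hv3, hvk⟩, hvq⟩ := hv2
        obtain ⟨⟨hw3, hwk⟩, hwq⟩ := hw2
        constructor
        · obtain ⟨h1, h2, h3, -, -, -⟩ := h v hv3
          obtain ⟨h1', h2', h3', -, -, -⟩ := h w hw3
          have hqq : (v.1 : ℝ) = w.1 := by
            have : (v.1 : ℤ) = w.1 := by rw [hvq, hwq]
            exact_mod_cast this
          have hv0 : (0 : ℝ) < v.1 := by exact_mod_cast h1
          have a1 := (abs_le.1 h3).2
          have a2 := (abs_le.1 h3').1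
          rw [← hqq] at a2
          have a3 : (v.2.1 : ℝ) / v.1 - (w.2.1 : ℝ) / v.1 ≤ l := by linarith
          rw [← sub_div, div_le_iff₀ hv0] at a3
          push_cast
          refine a3.trans ?_
          exact mul_le_mul_of_nonneg_left h2 hl0
        · rw [abs_dvd]
          have e1 := hkeq v hv3
          have e2 := hkeq w hw3
          rw [hvk, hvq] at e1
          rw [hwk, hwq] at e2
          have e3 : x * ((v.2.2 : ℤ) - w.2.2) = y * ((v.2.1 : ℤ) - w.2.1) := by linarith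
          rw [hx', hy'] at e3
          have e4 : (g : ℤ) * (x' * ((v.2.2 : ℤ) - w.2.2)) =
            g * (y' * ((v.2.1 : ℤ) - w.2.1)) := by linarith
          have hgz : (g : ℤ) ≠ 0 := by exact_mod_cast hg0.ne'
          have e5 := mul_left_cancel₀ hgz e4
          have e6 : x' ∣ y' * ((v.2.1 : ℤ) - w.2.1) := ⟨_, e5.symm⟩
          exact hcop.dvd_of_dvd_mul_left e6
    calc (W1.card : ℝ) ≤ (l * X * g / n + 1) * (W1.image (fun v => (v.1 : ℤ))).card :=
          card_le_mul_image _ _ _ hfib2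
      _ ≤ (l * X * g / n + 1) * (Λ / g + 1) := by
          refine mul_le_mul_of_nonneg_left hqimg (by positivity)
  calc (W.card : ℝ) ≤ (l * X * g / n + 1) * (Λ / g + 1) * (W.image kf).card :=
        card_le_mul_image _ _ _ hfib
    _ ≤ _ := mul_le_mul_of_nonneg_left hkimg (by positivity)

lemma simp_bound {X l Λ n g : ℝ} (hX : 1 ≤ X) (hl0 : 0 ≤ l) (hl1 : l ≤ 1) (hΛ0 : 0 ≤ Λ)
    (hΛX : Λ ≤ X) (hn : 1 ≤ n) (hg : 1 ≤ g) (hgn : g ≤ n) :
    (l * X * g / n + 1) * (Λ / g + 1) * (2 * l * n + 1) ≤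
      2 * l ^ 2 * Λ * X + 9 * n * X + X ^ 2 / n := by
  set A := Λ / g with hA
  set B := l * X * g / n with hB
  have hn0 : 0 < n := by linarith
  have hg0 : 0 < g := by linarith
  have hA0 : 0 ≤ A := by positivity
  have hB0 : 0 ≤ B := by positivity
  have hA1 : A ≤ X := by
    rw [hA, div_le_iff₀ hg0]
    nlinarith
  have hB1 : B ≤ X := by
    rw [hB, div_le_iff₀ hn0]
    have : l * X ≤ 1 * X := mul_le_mul_of_nonneg_right hl1 (by linarith)
    have : l * X * g ≤ 1 * X * n := mul_le_mul this hgn hg0.le (by linarith)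
    linarith
  have hAB : A * B = Λ * l * X / n := by
    rw [hA, hB]; field_simp
  have e1 : A * B * (2 * l * n) = 2 * l ^ 2 * Λ * X := by
    rw [hAB]; field_simp
  have e2 : A * B ≤ X ^ 2 / n := by
    rw [hAB]
    refine div_le_div_of_nonneg_right ?_ hn0.le
    have : Λ * l ≤ X * 1 := mul_le_mul hΛX hl1 hl0 (by linarith)
    nlinarith
  have e3 : (A + B + 1) * (2 * l * n) ≤ 6 * n * X := by
    have h1 : A + B + 1 ≤ 3 * X := by linarith
    have h2 : 2 * l * n ≤ 2 * n := by nlinarith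
    have := mul_le_mul h1 h2 (by positivity) (by linarith)
    linarith
  have e4 : A + B + 1 ≤ 3 * n * X := by
    have h1 : A + B + 1 ≤ 3 * X := by linarith
    nlinarith
  have : (B + 1) * (A + 1) * (2 * l * n + 1) =
    A * B * (2 * l * n) + (A + B + 1) * (2 * l * n) + A * B + (A + B + 1) := by ring
  rw [this]
  linarith

/-- The main count, first class. -/
lemma count1 (V : Finset (ℕ × ℕ × ℕ)) (X c1 c2 l θ u1 u2 : ℝ) (N : ℕ)
    (hX : 1 ≤ X) (hl0 : 0 ≤ l) (hl1 : l ≤ 1) (hθ0 : 0 ≤ θ) (hθ1 : θ ≤ 1)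
    (hN : ∀ n : ℕ, (n : ℝ) ^ 2 ≤ u2 * X → n ≤ N) (hN2 : (N : ℝ) ^ 2 ≤ u2 * X) (hu2 : 0 < u2)
    (hθ : ∀ s q q' : ℝ, u1 * q ≤ s → s ≤ u2 * q → u1 * q' ≤ s → s ≤ u2 * q' → 0 ≤ q →
      q ≤ X → 0 ≤ q' → q' ≤ X → q - q' ≤ θ * X)
    (h : ∀ v ∈ V, 1 ≤ v.1 ∧ (v.1 : ℝ) ≤ X ∧ |(v.2.1 : ℝ) / v.1 - c1| ≤ l / 2 ∧
      |(v.2.2 : ℝ) / v.1 - c2| ≤ l / 2 ∧ ∃ x y : ℤ, (v.1 : ℤ) ∣ x * v.2.2 - y * v.2.1 ∧
        ((Int.gcd x y : ℕ) : ℤ) ∣ v.1 ∧ (x, y) ≠ (0, 0) ∧ y.natAbs ≤ x.natAbs ∧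
        u1 * v.1 ≤ (x : ℝ) ^ 2 + y ^ 2 ∧ (x : ℝ) ^ 2 + y ^ 2 ≤ u2 * v.1) :
    (V.card : ℝ) ≤ 12 * l ^ 2 * θ * u2 * X ^ 3 + 54 * N ^ 3 * X + 6 * X ^ 2 * N := by
  classical
  have hex : ∀ v : ℕ × ℕ × ℕ, ∃ z : ℤ × ℤ, v ∈ V → ((v.1 : ℤ) ∣ z.1 * v.2.2 - z.2 * v.2.1 ∧
        ((Int.gcd z.1 z.2 : ℕ) : ℤ) ∣ v.1 ∧ z ≠ (0, 0) ∧ z.2.natAbs ≤ z.1.natAbs ∧
        u1 * v.1 ≤ (z.1 : ℝ) ^ 2 + z.2 ^ 2 ∧ (z.1 : ℝ) ^ 2 + z.2 ^ 2 ≤ u2 * v.1) := by
    intro v
    by_cases hv : v ∈ V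
    · obtain ⟨-, -, -, -, x, y, hxy⟩ := h v hv
      exact ⟨(x, y), fun _ => hxy⟩
    · exact ⟨(0, 0), fun h => absurd h hv⟩
  choose z hz using hex
  have hX0 : 0 < X := by linarith
  have hmaps : ∀ v ∈ V, (z v).1.natAbs ∈ Finset.Icc 1 N := by
    intro v hv
    obtain ⟨z1, z2, z3, z4, z5, z6⟩ := hz v hv
    rw [Finset.mem_Icc]
    constructor
    · by_contra h0
      have h1 : (z v).1.natAbs = 0 := by omega
      have h2 : (z v).2.natAbs = 0 := by omega
      rw [Int.natAbs_eq_zero] at h1 h2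
      exact z3 (Prod.ext h1 h2)
    · refine hN _ ?_
      have e1 : (((z v).1.natAbs : ℕ) : ℝ) ^ 2 = ((z v).1 : ℝ) ^ 2 := by
        rw [Nat.cast_natAbs, Int.cast_abs, sq_abs]
      rw [e1]
      have h2 := (h v hv).2.1
      have : u2 * v.1 ≤ u2 * X := mul_le_mul_of_nonneg_left h2 hu2.le
      nlinarith [sq_nonneg ((z v).2 : ℝ)]
  have hsum : (V.card : ℝ) =
      ∑ n ∈ Finset.Icc 1 N, ((V.filter (fun v => (z v).1.natAbs = n)).card : ℝ) := by
    have := Finset.card_eq_sum_card_fiberwise (f := fun v => (z v).1.natAbs) (s := V)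
      (t := Finset.Icc 1 N) (fun v hv => hmaps v hv)
    exact_mod_cast this
  rw [hsum]
  have hper : ∀ n ∈ Finset.Icc 1 N, ((V.filter (fun v => (z v).1.natAbs = n)).card : ℝ) ≤
      12 * l ^ 2 * θ * X ^ 2 * N + 54 * N ^ 2 * X + 6 * X ^ 2 := by
    intro n hn
    rw [Finset.mem_Icc] at hn
    have hn1 : (1 : ℝ) ≤ n := by exact_mod_cast hn.1
    have hnN : (n : ℝ) ≤ N := by exact_mod_cast hn.2
    set W := V.filter (fun v => (z v).1.natAbs = n) with hW
    have himg : ((W.image z).card : ℝ) ≤ 6 * n := by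
      have hsub : W.image z ⊆ ({(n : ℤ), -(n : ℤ)} : Finset ℤ) ×ˢ
          Finset.Icc (-(n : ℤ)) n := by
        intro w hw
        rw [Finset.mem_image] at hw
        obtain ⟨v, hv, rfl⟩ := hw
        rw [hW, Finset.mem_filter] at hv
        obtain ⟨z1, z2, z3, z4, z5, z6⟩ := hz v hv.1
        rw [Finset.mem_product, Finset.mem_Icc]
        refine ⟨?_, ?_, ?_⟩
        · simp only [Finset.mem_insert, Finset.mem_singleton]
          have := hv.2
          omega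
        · have := hv.2; omega
        · have := hv.2; omega
      have h1 := Finset.card_le_card hsub
      rw [Finset.card_product, Int.card_Icc] at h1
      have h2 : ({(n : ℤ), -(n : ℤ)} : Finset ℤ).card ≤ 2 := Finset.card_le_two
      have h3 : ((n : ℤ) + 1 - -(n : ℤ)).toNat = 2 * n + 1 := by omega
      rw [h3] at h1
      have h4 : (W.image z).card ≤ 2 * (2 * n + 1) :=
        h1.trans (Nat.mul_le_mul_right _ h2)
      have h5 : (W.image z).card ≤ 6 * n := by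
        have := hn.1
        omega
      exact_mod_cast h5
    have hfib : ∀ w ∈ W.image z, ((W.filter (fun v => z v = w)).card : ℝ) ≤
        2 * l ^ 2 * (θ * X) * X + 9 * n * X + X ^ 2 / n := by
      intro w hw
      have hw' : ∃ v ∈ W, z v = w := by simpa using Finset.mem_image.1 hw
      obtain ⟨v0, hv0, hv0w⟩ := hw'
      rw [hW, Finset.mem_filter] at hv0
      obtain ⟨z1, z2, z3, z4, z5, z6⟩ := hz v0 hv0.1
      rw [hv0w] at z1 z2 z3 z4 z5 z6
      have hwn : w.1.natAbs = n := by rw [← hv0w]; exact hv0.2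
      have hw1 : w.1 ≠ 0 := by
        intro h0; rw [h0] at hwn; simp at hwn; omega
      have hgpos : 1 ≤ Int.gcd w.1 w.2 := Int.gcd_pos_of_ne_zero_left _ hw1
      have hgle : Int.gcd w.1 w.2 ≤ n := by
        rw [← hwn]
        exact Int.gcd_le_natAbs_left _ hw1
      have hmem : ∀ v ∈ W.filter (fun v => z v = w), v ∈ V ∧ z v = w := by
        intro v hv
        rw [Finset.mem_filter, hW, Finset.mem_filter] at hv
        exact ⟨hv.1.1, hv.2⟩
      refine (perz (W.filter (fun v => z v = w)) w.1 w.2 n (Int.gcd w.1 w.2) hwn hn.1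
        (by rw [hwn] at z4; exact z4) rfl X c1 c2 l (θ * X) hl0 (by positivity) ?_ ?_
        hX0.le).trans ?_
      · intro v hv
        obtain ⟨hvV, hvw⟩ := hmem v hv
        obtain ⟨a1, a2, a3, a4, -⟩ := h v hvV
        obtain ⟨b1, b2, -⟩ := hz v hvV
        rw [hvw] at b1 b2
        exact ⟨a1, a2, a3, a4, b1, b2⟩
      · intro v hv v' hv'
        obtain ⟨hvV, hvw⟩ := hmem v hv
        obtain ⟨hvV', hvw'⟩ := hmem v' hv'
        obtain ⟨-, -, -, -, b5, b6⟩ := hz v hvV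
        obtain ⟨-, -, -, -, b5', b6'⟩ := hz v' hvV'
        rw [hvw] at b5 b6
        rw [hvw'] at b5' b6'
        exact hθ _ _ _ b5 b6 b5' b6' (by positivity) (h v hvV).2.1 (by positivity)
          (h v' hvV').2.1
      · refine simp_bound hX hl0 hl1 (by positivity) ?_ hn1 (by exact_mod_cast hgpos)
          (by exact_mod_cast hgle)
        nlinarith
    calc (W.card : ℝ) ≤ (2 * l ^ 2 * (θ * X) * X + 9 * n * X + X ^ 2 / n) * (W.image z).card :=
          card_le_mul_image _ _ _ hfib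
      _ ≤ (2 * l ^ 2 * (θ * X) * X + 9 * n * X + X ^ 2 / n) * (6 * n) :=
          mul_le_mul_of_nonneg_left himg (by positivity)
      _ = 12 * l ^ 2 * θ * X ^ 2 * n + 54 * n ^ 2 * X + 6 * X ^ 2 := by
          field_simp
          ring
      _ ≤ 12 * l ^ 2 * θ * X ^ 2 * N + 54 * N ^ 2 * X + 6 * X ^ 2 := by
          gcongr
  calc ∑ n ∈ Finset.Icc 1 N, ((V.filter (fun v => (z v).1.natAbs = n)).card : ℝ)
      ≤ ∑ n ∈ Finset.Icc 1 N, (12 * l ^ 2 * θ * X ^ 2 * N + 54 * N ^ 2 * X + 6 * X ^ 2) :=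
        Finset.sum_le_sum hper
    _ = 12 * l ^ 2 * θ * X ^ 2 * N ^ 2 + 54 * N ^ 3 * X + 6 * X ^ 2 * N := by
        rw [Finset.sum_const, Nat.card_Icc, nsmul_eq_mul]
        simp
        ring
    _ ≤ 12 * l ^ 2 * θ * X ^ 2 * (u2 * X) + 54 * N ^ 3 * X + 6 * X ^ 2 * N := by
        gcongr
    _ = 12 * l ^ 2 * θ * u2 * X ^ 3 + 54 * N ^ 3 * X + 6 * X ^ 2 * N := by ring

/-- The main count. -/
lemma count2 (V : Finset (ℕ × ℕ × ℕ)) (X c1 c2 l θ u1 u2 : ℝ) (N : ℕ)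
    (hX : 1 ≤ X) (hl0 : 0 ≤ l) (hl1 : l ≤ 1) (hθ0 : 0 ≤ θ) (hθ1 : θ ≤ 1)
    (hN : ∀ n : ℕ, (n : ℝ) ^ 2 ≤ u2 * X → n ≤ N) (hN2 : (N : ℝ) ^ 2 ≤ u2 * X) (hu2 : 0 < u2)
    (hθ : ∀ s q q' : ℝ, u1 * q ≤ s → s ≤ u2 * q → u1 * q' ≤ s → s ≤ u2 * q' → 0 ≤ q →
      q ≤ X → 0 ≤ q' → q' ≤ X → q - q' ≤ θ * X)
    (h : ∀ v ∈ V, 1 ≤ v.1 ∧ (v.1 : ℝ) ≤ X ∧ |(v.2.1 : ℝ) / v.1 - c1| ≤ l / 2 ∧
      |(v.2.2 : ℝ) / v.1 - c2| ≤ l / 2 ∧ ∃ x y : ℤ, (v.1 : ℤ) ∣ x * v.2.2 - y * v.2.1 ∧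
        ((Int.gcd x y : ℕ) : ℤ) ∣ v.1 ∧ (x, y) ≠ (0, 0) ∧
        u1 * v.1 ≤ (x : ℝ) ^ 2 + y ^ 2 ∧ (x : ℝ) ^ 2 + y ^ 2 ≤ u2 * v.1) :
    (V.card : ℝ) ≤ 2 * (12 * l ^ 2 * θ * u2 * X ^ 3 + 54 * N ^ 3 * X + 6 * X ^ 2 * N) := by
  classical
  set P : ℕ × ℕ × ℕ → Prop := fun v => ∃ x y : ℤ, (v.1 : ℤ) ∣ x * v.2.2 - y * v.2.1 ∧
        ((Int.gcd x y : ℕ) : ℤ) ∣ v.1 ∧ (x, y) ≠ (0, 0) ∧ y.natAbs ≤ x.natAbs ∧
        u1 * v.1 ≤ (x : ℝ) ^ 2 + y ^ 2 ∧ (x : ℝ) ^ 2 + y ^ 2 ≤ u2 * v.1 with hP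
  have h1 := count1 (V.filter P) X c1 c2 l θ u1 u2 N hX hl0 hl1 hθ0 hθ1 hN hN2 hu2 hθ (by
    intro v hv
    rw [Finset.mem_filter] at hv
    obtain ⟨a1, a2, a3, a4, -⟩ := h v hv.1
    exact ⟨a1, a2, a3, a4, hv.2⟩)
  set sw : ℕ × ℕ × ℕ → ℕ × ℕ × ℕ := fun v => (v.1, v.2.2, v.2.1) with hsw
  have hinj : Function.Injective sw := by
    intro v w hvw
    simp only [hsw, Prod.mk.injEq] at hvw
    exact Prod.ext hvw.1 (Prod.ext hvw.2.2 hvw.2.1)
  have h2 := count1 ((V.filter (fun v => ¬ P v)).image sw) X c2 c1 l θ u1 u2 N hX hl0 hl1 hθ0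
    hθ1 hN hN2 hu2 hθ (by
    intro w hw
    rw [Finset.mem_image] at hw
    obtain ⟨v, hv, rfl⟩ := hw
    rw [Finset.mem_filter] at hv
    obtain ⟨a1, a2, a3, a4, x, y, b1, b2, b3, b4, b5⟩ := h v hv.1
    refine ⟨a1, a2, a4, a3, y, x, ?_, ?_, ?_, ?_, ?_, ?_⟩
    · simp only [hsw]
      have : y * (v.2.1 : ℤ) - x * v.2.2 = -(x * v.2.2 - y * v.2.1) := by ring
      rw [this]; exact (dvd_neg).2 b1
    · simp only [hsw]; rw [Int.gcd_comm]; exact b2
    · intro h0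
      simp only [Prod.mk.injEq] at h0
      exact b3 (by rw [h0.1, h0.2])
    · by_contra hlt
      exact hv.2 ⟨x, y, b1, b2, b3, by omega, b4, b5⟩
    · simp only [hsw]; linarith
    · simp only [hsw]; linarith)
  rw [Finset.card_image_of_injective _ hinj] at h2
  have h3 : (V.card : ℝ) = (V.filter P).card + (V.filter (fun v => ¬ P v)).card := by
    have := Finset.card_filter_add_card_filter_not (s := V) P
    exact_mod_cast this.symm
  rw [h3]
  linarith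

end Pool.Agent.U408.JP
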