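import Pool.Agent.U408.JP.Words

set_option autoImplicit false

namespace Pool.Agent.U408.JP

/-- `(x,y)` lies in the planar lattice generated by `(a,b)`, `(N,0)`, `(0,N)`. -/
def InL (N a b : ℕ) (x y : ℤ) : Prop :=
  ∃ n k l : ℤ, x = n * a + k * N ∧ y = n * b + l * N

/-- Euclidean length of a shortest nonzero vector of the lattice generated by
`(a,b)`, `(N,0)`, `(0,N)`. -/
noncomputable def lam (N a b : ℕ) : ℝ :=
  sInf {t : ℝ | ∃ x y : ℤ, (x, y) ≠ (0, 0) ∧ InL N a b x y ∧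
    t = Real.sqrt ((x : ℝ) ^ 2 + (y : ℝ) ^ 2)}

lemma inL_dvd {q p r : ℕ} {x y : ℤ} (h : InL q p r x y) : (q : ℤ) ∣ x * r - y * p := by
  obtain ⟨n, k, l, rfl, rfl⟩ := h
  exact ⟨k * r - l * p, by ring⟩

lemma dvd_inL {q p r : ℕ} (hc : Cop (q, p, r)) {x y : ℤ} (h : (q : ℤ) ∣ x * r - y * p) :
    InL q p r x y := by
  have hg : Nat.gcd q (Nat.gcd p r) = 1 :=
    hc _ (Nat.gcd_dvd_left _ _) ((Nat.gcd_dvd_right _ _).trans (Nat.gcd_dvd_left _ _))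
      ((Nat.gcd_dvd_right _ _).trans (Nat.gcd_dvd_right _ _))
  have b1 := Nat.gcd_eq_gcd_ab p r
  have b2 := Nat.gcd_eq_gcd_ab q (Nat.gcd p r)
  rw [hg] at b2
  set B' := Nat.gcdA p r
  set C' := Nat.gcdB p r
  set A := Nat.gcdA q (Nat.gcd p r)
  set D := Nat.gcdB q (Nat.gcd p r)
  rw [b1] at b2
  push_cast at b2
  obtain ⟨k, hk⟩ := h
  -- A q + (B' D) p + (C' D) r = 1
  refine ⟨B' * D * x + C' * D * y, A * x + C' * D * k, A * y - B' * D * k, ?_, ?_⟩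
  · linear_combination x * b2 + (C' * D) * hk
  · linear_combination y * b2 - (B' * D) * hk

lemma lam_attained {q p r : ℕ} (hq : 1 ≤ q) : ∃ x y : ℤ, (x, y) ≠ (0, 0) ∧ InL q p r x y ∧
    lam q p r = Real.sqrt ((x : ℝ) ^ 2 + (y : ℝ) ^ 2) ∧
    ∀ x' y' : ℤ, (x', y') ≠ (0, 0) → InL q p r x' y' → x ^ 2 + y ^ 2 ≤ x' ^ 2 + y' ^ 2 := by
  have hne : ∃ m : ℕ, ∃ x y : ℤ, (x, y) ≠ (0, 0) ∧ InL q p r x y ∧ (m : ℤ) = x ^ 2 + y ^ 2 := by
    refine ⟨q ^ 2, q, 0, ?_, ⟨0, 1, 0, by ring, by ring⟩, by push_cast; ring⟩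
    intro h
    simp only [Prod.mk.injEq, and_true] at h
    omega
  classical
  obtain ⟨x, y, h1, h2, h3⟩ := Nat.find_spec hne
  have hmin : ∀ x' y' : ℤ, (x', y') ≠ (0, 0) → InL q p r x' y' →
      x ^ 2 + y ^ 2 ≤ x' ^ 2 + y' ^ 2 := by
    intro x' y' h1' h2'
    have h4 : ∃ m : ℕ, (m : ℤ) = x' ^ 2 + y' ^ 2 :=
      ⟨(x' ^ 2 + y' ^ 2).toNat, Int.toNat_of_nonneg (by positivity)⟩
    obtain ⟨m, hm⟩ := h4
    have h5 : Nat.find hne ≤ m := Nat.find_min' hne ⟨x', y', h1', h2', hm⟩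
    rw [← h3, ← hm]
    exact_mod_cast h5
  refine ⟨x, y, h1, h2, ?_, hmin⟩
  refine IsLeast.csInf_eq ⟨⟨x, y, h1, h2, rfl⟩, ?_⟩
  rintro t ⟨x', y', h1', h2', rfl⟩
  refine Real.sqrt_le_sqrt ?_
  exact_mod_cast hmin x' y' h1' h2'

lemma short_gcd {q p r : ℕ} (hc : Cop (q, p, r)) (hq : 1 ≤ q) {x y : ℤ}
    (h0 : (x, y) ≠ (0, 0)) (hL : InL q p r x y)
    (hmin : ∀ x' y' : ℤ, (x', y') ≠ (0, 0) → InL q p r x' y' →
      x ^ 2 + y ^ 2 ≤ x' ^ 2 + y' ^ 2) : ((Int.gcd x y : ℕ) : ℤ) ∣ q := by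
  obtain ⟨k, hk⟩ := inL_dvd hL
  set g : ℤ := ((Int.gcd x y : ℕ) : ℤ) with hg
  have hgx : g ∣ x := Int.gcd_dvd_left ..
  have hgy : g ∣ y := Int.gcd_dvd_right ..
  have hcop : IsCoprime g k := by
    rw [Int.isCoprime_iff_gcd_eq_one]
    set d : ℕ := Int.gcd g k with hd
    have hdg : (d : ℤ) ∣ g := Int.gcd_dvd_left ..
    have hdk : (d : ℤ) ∣ k := Int.gcd_dvd_right ..
    obtain ⟨x2, hx2⟩ := hdg.trans hgx
    obtain ⟨y2, hy2⟩ := hdg.trans hgy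
    obtain ⟨k2, hk2⟩ := hdk
    have hd0 : (d : ℤ) ≠ 0 := by
      intro h
      rw [h] at hx2 hy2
      simp only [zero_mul] at hx2 hy2
      exact h0 (by rw [hx2, hy2])
    have h1 : (q : ℤ) ∣ x2 * r - y2 * p := by
      refine ⟨k2, ?_⟩
      have : (d : ℤ) * (x2 * r - y2 * p) = d * (q * k2) := by
        rw [hx2, hy2, hk2] at hk
        linarith
      exact mul_left_cancel₀ hd0 this
    have h2 : (x2, y2) ≠ (0, 0) := by
      intro h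
      simp only [Prod.mk.injEq] at h
      rw [h.1] at hx2
      rw [h.2] at hy2
      simp only [mul_zero] at hx2 hy2
      exact h0 (by rw [hx2, hy2])
    have h3 := hmin x2 y2 h2 (dvd_inL hc h1)
    have h4 : 0 < x2 ^ 2 + y2 ^ 2 := by
      rcases eq_or_ne x2 0 with hx | hx
      · rcases eq_or_ne y2 0 with hy | hy
        · exact absurd (by rw [hx, hy]) h2
        · positivity
      · positivity
    rw [hx2, hy2] at h3
    have h5 : (d : ℤ) ^ 2 * (x2 ^ 2 + y2 ^ 2) ≤ 1 * (x2 ^ 2 + y2 ^ 2) := by linarith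
    have h6 := le_of_mul_le_mul_right h5 h4
    have h7 : (d : ℤ) ≤ 1 := by nlinarith
    have h8 : d ≠ 0 := by exact_mod_cast hd0
    omega
  have h9 : g ∣ (q : ℤ) * k := by
    rw [← hk]
    exact dvd_sub (Dvd.dvd.mul_right hgx _) (Dvd.dvd.mul_right hgy _)
  exact hcop.dvd_of_dvd_mul_right h9

/-- The normalised ratio. -/
noncomputable def fr (N a b : ℕ) : ℝ := lam N a b / Real.sqrt N

/-- The data provided by the shortest vector. -/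
lemma short_data {q p r : ℕ} (hc : Cop (q, p, r)) (hq : 1 ≤ q) {u1 u2 : ℝ}
    (h1 : u1 ≤ fr q p r ^ 2) (h2 : fr q p r ^ 2 ≤ u2) :
    ∃ x y : ℤ, (q : ℤ) ∣ x * r - y * p ∧
        ((Int.gcd x y : ℕ) : ℤ) ∣ q ∧ (x, y) ≠ (0, 0) ∧
        u1 * q ≤ (x : ℝ) ^ 2 + y ^ 2 ∧ (x : ℝ) ^ 2 + y ^ 2 ≤ u2 * q := by
  obtain ⟨x, y, a1, a2, a3, a4⟩ := lam_attained (p := p) (r := r) hq
  have hq0 : (0 : ℝ) < q := by exact_mod_cast hq
  have e : fr q p r ^ 2 = ((x : ℝ) ^ 2 + y ^ 2) / q := by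
    rw [fr, a3, div_pow, Real.sq_sqrt (by positivity), Real.sq_sqrt hq0.le]
  refine ⟨x, y, inL_dvd a2, short_gcd hc hq a1 a2 a4, a1, ?_, ?_⟩
  · rw [e, le_div_iff₀ hq0] at h1; exact h1
  · rw [e, div_le_iff₀ hq0] at h2; exact h2

end Pool.Agent.U408.JP
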