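import Pool.Agent.U408.JP.Meas
import Pool.Agent.U408.JP.Count
import Pool.Agent.U408.JP.Lattice

set_option autoImplicit false

open MeasureTheory Set Filter Topology
open scoped ENNReal

namespace Pool.Agent.U408.JP

/-- the ratio sequence -/
noncomputable def sq2 (x : ℝ × ℝ) (i : ℕ) : ℝ :=
  fr (conv x (i + 2)).1 (conv x (i + 2)).2.1 (conv x (i + 2)).2.2

/-- points whose ratios squared eventually lie in `[u1,u2]` -/
def EE (u1 u2 : ℝ) (n0 : ℕ) : Set (ℝ × ℝ) :=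
  {x | Adm x ∧ ∀ i, n0 ≤ i → u1 ≤ sq2 x i ^ 2 ∧ sq2 x i ^ 2 ≤ u2}

/-- the goodness condition on the interval -/
def Gd (u1 u2 θ : ℝ) : Prop :=
  0 < u2 ∧ 0 ≤ θ ∧ θ ≤ 1 ∧ θ * u2 ≤ 1 / 10 ^ 13 ∧
  ∀ X : ℝ, 0 ≤ X → ∀ s q q' : ℝ, u1 * q ≤ s → s ≤ u2 * q → u1 * q' ≤ s → s ≤ u2 * q' → 0 ≤ q →
      q ≤ X → 0 ≤ q' → q' ≤ X → q - q' ≤ θ * X

/-- near condition -/
def Nr (c : ℝ × ℝ) (ρ : ℝ) (v : ℕ × ℕ × ℕ) : Prop :=
  |(v.2.1 : ℝ) / v.1 - c.1| ≤ 4 * ρ / 2 ∧ |(v.2.2 : ℝ) / v.1 - c.2| ≤ 4 * ρ / 2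

def Sh (u1 u2 : ℝ) (v : ℕ × ℕ × ℕ) : Prop :=
  ∃ x y : ℤ, (v.1 : ℤ) ∣ x * v.2.2 - y * v.2.1 ∧
        ((Int.gcd x y : ℕ) : ℤ) ∣ v.1 ∧ (x, y) ≠ (0, 0) ∧
        u1 * v.1 ≤ (x : ℝ) ^ 2 + y ^ 2 ∧ (x : ℝ) ^ 2 + y ^ 2 ≤ u2 * v.1

open Classical in
noncomputable def V1 (u1 u2 : ℝ) (c : ℝ × ℝ) (ρ : ℝ) (Q : ℕ) : Finset (ℕ × ℕ × ℕ) :=
  ((Finset.Icc Q (1000 * Q)) ×ˢ (Finset.range (1000 * Q + 1) ×ˢ
    Finset.range (1000 * Q + 1))).filter (fun v => Nr c ρ v ∧ Sh u1 u2 v)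

open Classical in
noncomputable def V2 (c : ℝ × ℝ) (ρ : ℝ) (Q : ℕ) : Finset (ℕ × ℕ × ℕ) :=
  ((Finset.Ioo 0 Q) ×ˢ (Finset.range (Q + 1) ×ˢ Finset.range (Q + 1))).filter
    (fun v => Nr c ρ v)

def sqr : Set (ℝ × ℝ) := Ioo (0 : ℝ) 1 ×ˢ Ioo (0 : ℝ) 1

def strip (Q : ℕ) (t : List (ℕ × ℕ)) : Set (ℝ × ℝ) :=
  Ioc (0 : ℝ) (3 * (ev t).1 / (1000 * Q)) ×ˢ Ioo (0 : ℝ) 1

lemma card_V1 {u1 u2 θ : ℝ} (hG : Gd u1 u2 θ) (c : ℝ × ℝ) {ρ : ℝ} (hρ : 0 < ρ)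
    (hρ1 : ρ ≤ 1 / 4) {Q : ℕ} (hQ : 2 ≤ Q) :
    ∃ N : ℕ, (N : ℝ) ^ 2 ≤ u2 * (1000 * Q) ∧ ((V1 u1 u2 c ρ Q).card : ℝ) ≤
      2 * (12 * (4 * ρ) ^ 2 * θ * u2 * (1000 * Q) ^ 3 + 54 * N ^ 3 * (1000 * Q) +
        6 * (1000 * Q) ^ 2 * N) := by
  classical
  obtain ⟨g1, g2, g3, g4, g5⟩ := hG
  have hQ' : (2 : ℝ) ≤ Q := by exact_mod_cast hQ
  have hnn : 0 ≤ u2 * (1000 * (Q : ℝ)) := by positivity
  refine ⟨⌊Real.sqrt (u2 * (1000 * Q))⌋₊, ?_, ?_⟩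
  · have := Nat.floor_le (Real.sqrt_nonneg (u2 * (1000 * (Q : ℝ))))
    calc ((⌊Real.sqrt (u2 * (1000 * Q))⌋₊ : ℕ) : ℝ) ^ 2 ≤ (Real.sqrt (u2 * (1000 * Q))) ^ 2 :=
          pow_le_pow_left₀ (by positivity) this 2
      _ = u2 * (1000 * Q) := Real.sq_sqrt hnn
  · refine count2 _ (1000 * (Q : ℝ)) c.1 c.2 (4 * ρ) θ u1 u2 _ (by linarith) (by positivity)
      (by linarith) g2 g3 ?_ ?_ g1 (g5 _ (by positivity)) ?_
    · intro n hn
      exact Nat.le_floor (Real.le_sqrt_of_sq_le hn)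
    · have := Nat.floor_le (Real.sqrt_nonneg (u2 * (1000 * (Q : ℝ))))
      calc ((⌊Real.sqrt (u2 * (1000 * Q))⌋₊ : ℕ) : ℝ) ^ 2 ≤ (Real.sqrt (u2 * (1000 * Q))) ^ 2 :=
            pow_le_pow_left₀ (by positivity) this 2
        _ = u2 * (1000 * Q) := Real.sq_sqrt hnn
    · intro v hv
      rw [V1, Finset.mem_filter, Finset.mem_product, Finset.mem_Icc] at hv
      obtain ⟨⟨⟨h1, h2⟩, -⟩, h3, h4⟩ := hv
      refine ⟨by omega, by exact_mod_cast h2, h3.1, h3.2, h4⟩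

lemma vol_U1 (V : Finset (ℕ × ℕ × ℕ)) {Q : ℕ} (hQ : 2 ≤ Q) (hV : ∀ v ∈ V, Q ≤ v.1) :
    volume {x | ∃ t, Vld t ∧ ev t ∈ V ∧ x ∈ phi t '' sqr} ≤
      ENNReal.ofReal (5 * (V.card : ℝ) / (Q : ℝ) ^ 3) := by
  have hQ' : (2 : ℝ) ≤ Q := by exact_mod_cast hQ
  have := sum_bound V (fun _ => 1 / (Q : ℝ) ^ 3) (fun v _ => by positivity)
    (fun t => phi t '' sqr) (by
      intro t ht htV
      have h1 := hV _ htV
      have hvol : volume sqr = 1 := by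
        rw [sqr, Measure.volume_eq_prod, Measure.prod_prod, Real.volume_Ioo]; simp
      refine (vol_phi ht (S := sqr) (measurableSet_Ioo.prod measurableSet_Ioo)
        (fun z hz => ⟨hz.1.1.le, hz.2.1.le⟩)).trans ?_
      rw [hvol, mul_one]
      refine ENNReal.ofReal_le_ofReal ?_
      have h2 : (Q : ℝ) ≤ (ev t).1 := by exact_mod_cast h1
      exact one_div_le_one_div_of_le (by positivity) (pow_le_pow_left₀ (by positivity) h2 3))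
  refine this.trans (le_of_eq ?_)
  congr 1
  rw [Finset.sum_const, nsmul_eq_mul]
  ring

lemma vol_U2 (V : Finset (ℕ × ℕ × ℕ)) {Q : ℕ} (hQ : 2 ≤ Q) :
    volume {x | ∃ t, Vld t ∧ ev t ∈ V ∧ x ∈ phi t '' strip Q t} ≤
      ENNReal.ofReal (5 * ∑ v ∈ V, 3 / (1000 * (Q : ℝ) * (v.1 : ℝ) ^ 2)) := by
  have hQ' : (2 : ℝ) ≤ Q := by exact_mod_cast hQ
  refine sum_bound V (fun v => 3 / (1000 * (Q : ℝ) * (v.1 : ℝ) ^ 2)) (fun v _ => by positivity)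
    (fun t => phi t '' strip Q t) ?_
  intro t ht _
  have hq := (vld_bound t ht).1
  have hq' : (1 : ℝ) ≤ (ev t).1 := by exact_mod_cast hq
  have hvol : volume (strip Q t) = ENNReal.ofReal (3 * (ev t).1 / (1000 * Q)) := by
    rw [strip, Measure.volume_eq_prod, Measure.prod_prod, Real.volume_Ioo, Real.volume_Ioc]
    simp
  refine (vol_phi ht (S := strip Q t) (measurableSet_Ioc.prod measurableSet_Ioo)
    (fun z hz => ⟨hz.1.1.le, hz.2.1.le⟩)).trans ?_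
  rw [hvol, ← ENNReal.ofReal_mul (by positivity)]
  refine ENNReal.ofReal_le_ofReal (le_of_eq ?_)
  field_simp

lemma card_near {c ρ : ℝ} (hρ : 0 < ρ) {q : ℕ} (hq : 1 ≤ q) (s : Finset ℕ)
    (h : ∀ p ∈ s, |(p : ℝ) / q - c| ≤ 4 * ρ / 2) : (s.card : ℝ) ≤ 4 * ρ * q + 1 := by
  classical
  have hq0 : (0 : ℝ) < q := by exact_mod_cast hq
  have hc : s.card = (s.image (fun p : ℕ => (p : ℤ))).card := by
    rw [Finset.card_image_of_injective _ Nat.cast_injective]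
  rw [hc]
  have := spacing (s.image (fun p : ℕ => (p : ℤ))) 1 one_pos (4 * ρ * q) (by positivity) ?_
  · simpa using this
  · intro i hi j hj
    rw [Finset.mem_image] at hi hj
    obtain ⟨a, ha, rfl⟩ := hi
    obtain ⟨b, hb, rfl⟩ := hj
    refine ⟨?_, one_dvd _⟩
    have h1 := (abs_le.1 (h a ha)).2
    have h2 := (abs_le.1 (h b hb)).1
    have h3 : (a : ℝ) / q - (b : ℝ) / q ≤ 4 * ρ := by linarith
    rw [← sub_div, div_le_iff₀ hq0] at h3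
    push_cast
    exact h3

lemma sum_V2 (c : ℝ × ℝ) {ρ : ℝ} (hρ : 0 < ρ) {Q : ℕ} (hQ : 2 ≤ Q) :
    ∑ v ∈ V2 c ρ Q, 3 / (1000 * (Q : ℝ) * (v.1 : ℝ) ^ 2) ≤
      96 / 1000 * ρ ^ 2 + 12 / (1000 * Q) := by
  classical
  have hQ' : (2 : ℝ) ≤ Q := by exact_mod_cast hQ
  have hmaps : ∀ v ∈ V2 c ρ Q, v.1 ∈ Finset.Ioo 0 Q := by
    intro v hv
    rw [V2, Finset.mem_filter, Finset.mem_product] at hv
    exact hv.1.1
  rw [← Finset.sum_fiberwise_of_maps_to hmaps]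
  have hper : ∀ q ∈ Finset.Ioo 0 Q,
      ∑ v ∈ (V2 c ρ Q).filter (fun v => v.1 = q), 3 / (1000 * (Q : ℝ) * (v.1 : ℝ) ^ 2) ≤
      3 / (1000 * (Q : ℝ)) * (32 * ρ ^ 2 + 2 * ((q : ℝ) ^ 2)⁻¹) := by
    intro q hq
    rw [Finset.mem_Ioo] at hq
    have hq0 : (1 : ℝ) ≤ q := by exact_mod_cast hq.1
    set F := (V2 c ρ Q).filter (fun v => v.1 = q) with hF
    have h1 : ∑ v ∈ F, 3 / (1000 * (Q : ℝ) * (v.1 : ℝ) ^ 2) =
        F.card * (3 / (1000 * (Q : ℝ) * (q : ℝ) ^ 2)) := by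
      rw [Finset.sum_congr rfl (fun v hv => by
        rw [(Finset.mem_filter.1 hv).2]), Finset.sum_const, nsmul_eq_mul]
    have h2 : (F.card : ℝ) ≤ (4 * ρ * q + 1) ^ 2 := by
      set P1 := F.image (fun v => v.2.1) with hP1
      set P2 := F.image (fun v => v.2.2) with hP2
      have hP1c : (P1.card : ℝ) ≤ 4 * ρ * q + 1 := by
        refine card_near (c := c.1) hρ hq.1 _ ?_
        intro p hp
        rw [hP1, Finset.mem_image] at hp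
        obtain ⟨v, hv, rfl⟩ := hp
        rw [hF, Finset.mem_filter, V2, Finset.mem_filter] at hv
        have := hv.1.2.1
        rw [hv.2] at this
        exact this
      have hP2c : (P2.card : ℝ) ≤ 4 * ρ * q + 1 := by
        refine card_near (c := c.2) hρ hq.1 _ ?_
        intro p hp
        rw [hP2, Finset.mem_image] at hp
        obtain ⟨v, hv, rfl⟩ := hp
        rw [hF, Finset.mem_filter, V2, Finset.mem_filter] at hv
        have := hv.1.2.2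
        rw [hv.2] at this
        exact this
      have hle : F.card ≤ (P1 ×ˢ P2).card := by
        refine Finset.card_le_card_of_injOn (fun v => (v.2.1, v.2.2)) ?_ ?_
        · intro v hv
          have hv' : v ∈ F := hv
          simp only [Finset.coe_product, mem_prod, Finset.mem_coe]
          exact ⟨Finset.mem_image_of_mem _ hv', Finset.mem_image_of_mem _ hv'⟩
        · intro v hv w hw hvw
          have hv' : v ∈ F := hv
          have hw' : w ∈ F := hw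
          have e1 := (Finset.mem_filter.1 hv').2
          have e2 := (Finset.mem_filter.1 hw').2
          simp only [Prod.mk.injEq] at hvw
          exact Prod.ext (by rw [e1, e2]) (Prod.ext hvw.1 hvw.2)
      rw [Finset.card_product] at hle
      have : (F.card : ℝ) ≤ P1.card * P2.card := by exact_mod_cast hle
      refine this.trans ?_
      rw [sq]
      exact mul_le_mul hP1c hP2c (by positivity) (by positivity)
    rw [h1]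
    have h3 : (4 * ρ * q + 1) ^ 2 ≤ 32 * ρ ^ 2 * q ^ 2 + 2 := by
      nlinarith [sq_nonneg (4 * ρ * (q : ℝ) - 1)]
    calc (F.card : ℝ) * (3 / (1000 * (Q : ℝ) * (q : ℝ) ^ 2))
        ≤ (32 * ρ ^ 2 * q ^ 2 + 2) * (3 / (1000 * (Q : ℝ) * (q : ℝ) ^ 2)) :=
          mul_le_mul_of_nonneg_right (h2.trans h3) (by positivity)
      _ = 3 / (1000 * (Q : ℝ)) * (32 * ρ ^ 2 + 2 * ((q : ℝ) ^ 2)⁻¹) := by
          field_simp
  refine (Finset.sum_le_sum hper).trans ?_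
  rw [← Finset.mul_sum, Finset.sum_add_distrib, Finset.sum_const, ← Finset.mul_sum,
    nsmul_eq_mul]
  have h4 := sum_Ioo_inv_sq_le (α := ℝ) 0 Q
  have h5 : ((Finset.Ioo 0 Q).card : ℝ) ≤ Q := by
    rw [Nat.card_Ioo]
    exact_mod_cast (by omega : Q - 0 - 1 ≤ Q)
  have h6 : ∑ i ∈ Finset.Ioo 0 Q, ((i : ℝ) ^ 2)⁻¹ ≤ 2 := by
    refine h4.trans ?_
    norm_num
  calc 3 / (1000 * (Q : ℝ)) * ((Finset.Ioo 0 Q).card * (32 * ρ ^ 2) +
        2 * ∑ i ∈ Finset.Ioo 0 Q, ((i : ℝ) ^ 2)⁻¹)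
      ≤ 3 / (1000 * (Q : ℝ)) * (Q * (32 * ρ ^ 2) + 2 * 2) := by
        gcongr
    _ = 96 / 1000 * ρ ^ 2 + 12 / (1000 * Q) := by
        field_simp
        ring

end Pool.Agent.U408.JP
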