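import Pool.Agent.U408.JP.Local

set_option autoImplicit false

open MeasureTheory Set Filter Topology
open scoped ENNReal

namespace Pool.Agent.U408.JP

lemma cover {u1 u2 : ℝ} {n0 M : ℕ} (hM : n0 ≤ M) {c : ℝ × ℝ} {ρ : ℝ}
    (hcl : ∀ x : ℝ × ℝ, Adm x → ∀ m, M ≤ m →
      |x.1 - ((conv x (m + 2)).2.1 : ℝ) / (conv x (m + 2)).1| ≤ ρ ∧
      |x.2 - ((conv x (m + 2)).2.2 : ℝ) / (conv x (m + 2)).1| ≤ ρ)
    {Q : ℕ} (hQ : 2 ≤ Q) {x : ℝ × ℝ} (hx : x ∈ EE u1 u2 n0)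
    (hxc : x ∈ Metric.closedBall c ρ) :
    ((x ∈ Icc (0 : ℝ) 1 ×ˢ Icc (0 : ℝ) 1) ∧ Q ≤ (conv x (M + 2)).1) ∨
    (∃ t, Vld t ∧ ev t ∈ V1 u1 u2 c ρ Q ∧ x ∈ phi t '' sqr) ∨
    (∃ t, Vld t ∧ ev t ∈ V2 c ρ Q ∧ x ∈ phi t '' strip Q t) := by
  classical
  obtain ⟨hA, hE⟩ := hx
  have hball : |x.1 - c.1| ≤ ρ ∧ |x.2 - c.2| ≤ ρ := by
    rw [Metric.mem_closedBall, Prod.dist_eq, max_le_iff, Real.dist_eq, Real.dist_eq] at hxc
    exact hxc
  have hnear : ∀ m, M ≤ m → Nr c ρ (conv x (m + 2)) := by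
    intro m hm
    obtain ⟨h1, h2⟩ := hcl x hA m hm
    obtain ⟨b1, b2⟩ := hball
    rw [abs_le] at h1 h2 b1 b2
    refine ⟨?_, ?_⟩ <;> rw [abs_le] <;> constructor <;> linarith
  have hsq : x ∈ Icc (0 : ℝ) 1 ×ˢ Icc (0 : ℝ) 1 :=
    ⟨⟨hA.pos1.le, hA.lt1.le⟩, ⟨hA.pos2.le, hA.lt2.le⟩⟩
  have hex : ∃ n, Q ≤ (conv x (n + 2)).1 := ⟨Q + 2, conv_unbdd hA Q⟩
  have hfind := Nat.find_spec hex
  have hne : Nat.find hex ≠ 0 := by
    intro h0
    rw [h0] at hfind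
    simp [conv] at hfind
    omega
  obtain ⟨m, hm⟩ := Nat.exists_eq_succ_of_ne_zero hne
  rw [hm] at hfind
  have hfind' : Q ≤ (conv x (m + 3)).1 := hfind
  have hlt : (conv x (m + 2)).1 < Q := by
    have := Nat.find_min hex (m := m) (by omega)
    omega
  have hmono := conv_mono hA
  by_cases hcase : (conv x (m + 3)).1 ≤ 1000 * Q
  · by_cases hmM : M ≤ m + 1
    · right; left
      obtain ⟨e1, e2, e3⟩ := conv_eq x (m + 1)
      refine ⟨digits x (m + 1), vld_digits _ _ hA, ?_, jpT^[m + 1] x, ?_,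
        phi_digits hA (m + 1)⟩
      · rw [← e3]
        obtain ⟨b1, b2, b3⟩ := conv_bound hA (m + 1)
        have hcv : (conv x (m + 1 + 2)).1 ≤ 1000 * Q := hcase
        rw [V1, Finset.mem_filter, Finset.mem_product, Finset.mem_product, Finset.mem_Icc,
          Finset.mem_range, Finset.mem_range]
        refine ⟨⟨⟨hfind', hcv⟩, by omega, by omega⟩, hnear _ hmM, ?_⟩
        obtain ⟨k1, k2⟩ := hE (m + 1) (by omega)
        have hc : Cop (conv x (m + 1 + 2)) := by rw [e3]; exact cop_ev _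
        exact short_data (q := (conv x (m + 1 + 2)).1) (p := (conv x (m + 1 + 2)).2.1)
          (r := (conv x (m + 1 + 2)).2.2) hc b1 k1 k2
      · have hAi := hA.iter (m + 1)
        exact ⟨⟨hAi.pos1, hAi.lt1⟩, ⟨hAi.pos2, hAi.lt2⟩⟩
    · left
      refine ⟨hsq, hfind'.trans (hmono (by omega))⟩
  · by_cases hmM : M ≤ m
    · right; right
      obtain ⟨e1, e2, e3⟩ := conv_eq x m
      have hAi := hA.iter m
      obtain ⟨b1, b2, b3⟩ := conv_bound hA m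
      refine ⟨digits x m, vld_digits _ _ hA, ?_, jpT^[m] x, ?_, phi_digits hA m⟩
      · rw [← e3]
        rw [V2, Finset.mem_filter, Finset.mem_product, Finset.mem_product, Finset.mem_Ioo,
          Finset.mem_range, Finset.mem_range]
        exact ⟨⟨⟨by omega, hlt⟩, by omega, by omega⟩, hnear _ hmM⟩
      · rw [strip, ← e3]
        refine ⟨⟨hAi.pos1, ?_⟩, ⟨hAi.pos2, hAi.lt2⟩⟩
        have hg := conv_growth hA m
        have h1 : 1000 * Q < 3 * jpB (jpT^[m] x) * (conv x (m + 2)).1 := by omega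
        have h2 : (1000 * (Q : ℝ)) < 3 * jpB (jpT^[m] x) * (conv x (m + 2)).1 := by
          exact_mod_cast h1
        have h3 : (jpB (jpT^[m] x) : ℝ) ≤ 1 / (jpT^[m] x).1 := by
          have : 0 ≤ 1 / (jpT^[m] x).1 := by have := hAi.pos1; positivity
          exact Nat.floor_le this
        have hpos := hAi.pos1
        rw [le_div_iff₀ hpos] at h3
        have hQ' : (2 : ℝ) ≤ Q := by exact_mod_cast hQ
        rw [le_div_iff₀ (by positivity)]
        have h4 : (jpT^[m] x).1 * (1000 * (Q : ℝ)) ≤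
            (jpT^[m] x).1 * (3 * jpB (jpT^[m] x) * (conv x (m + 2)).1) :=
          mul_le_mul_of_nonneg_left h2.le hpos.le
        have h5 : (jpT^[m] x).1 * (3 * jpB (jpT^[m] x) * ((conv x (m + 2)).1 : ℝ)) =
            3 * (conv x (m + 2)).1 * (jpB (jpT^[m] x) * (jpT^[m] x).1) := by ring
        have h6 : 3 * ((conv x (m + 2)).1 : ℝ) * (jpB (jpT^[m] x) * (jpT^[m] x).1) ≤
            3 * (conv x (m + 2)).1 * 1 := mul_le_mul_of_nonneg_left h3 (by positivity)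
        linarith
    · left
      refine ⟨hsq, hfind'.trans (hmono (by omega))⟩

theorem local_est {u1 u2 θ : ℝ} (hG : Gd u1 u2 θ) (n0 : ℕ) (c : ℝ × ℝ) {ρ : ℝ}
    (hρ : 0 < ρ) (hρ1 : ρ ≤ 1 / 4) :
    volume (EE u1 u2 n0 ∩ Metric.closedBall c ρ) ≤ ENNReal.ofReal (2 * ρ ^ 2) := by
  obtain ⟨M1, hM1⟩ := close_unif ρ hρ
  set M := max M1 n0 with hM
  obtain ⟨Q0, hQ0⟩ := tight (M + 2) (ENNReal.ofReal (ρ ^ 2 / 4))
    (ENNReal.ofReal_pos.2 (by positivity))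
  have hu2 : 0 < u2 := hG.1
  have hθu : θ * u2 ≤ 1 / 10 ^ 13 := hG.2.2.2.1
  set C : ℝ := 540000000 * u2 + 60000000 with hC
  have hCpos : 0 < C := by positivity
  obtain ⟨Q, hQ2, hQ0', hQ3, hQ4⟩ : ∃ Q : ℕ, 2 ≤ Q ∧ Q0 ≤ Q ∧ 1 / ρ ^ 2 ≤ (Q : ℝ) ∧
      16000 * C ^ 2 * u2 / ρ ^ 4 ≤ (Q : ℝ) := by
    obtain ⟨a, ha⟩ := exists_nat_ge (1 / ρ ^ 2)
    obtain ⟨b, hb⟩ := exists_nat_ge (16000 * C ^ 2 * u2 / ρ ^ 4)
    refine ⟨max (max 2 Q0) (max a b), by simp, by simp, ?_, ?_⟩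
    · refine ha.trans ?_
      exact_mod_cast (le_max_left a b).trans (le_max_right (max 2 Q0) _)
    · refine hb.trans ?_
      exact_mod_cast (le_max_right a b).trans (le_max_right (max 2 Q0) _)
  have hQr : (2 : ℝ) ≤ Q := by exact_mod_cast hQ2
  obtain ⟨N, hN2, hcard⟩ := card_V1 hG c hρ hρ1 hQ2
  have hsub : EE u1 u2 n0 ∩ Metric.closedBall c ρ ⊆
      ({x : ℝ × ℝ | (x ∈ Icc (0 : ℝ) 1 ×ˢ Icc (0 : ℝ) 1) ∧ Q ≤ (conv x (M + 2)).1} ∪
      {x | ∃ t, Vld t ∧ ev t ∈ V1 u1 u2 c ρ Q ∧ x ∈ phi t '' sqr}) ∪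
      {x | ∃ t, Vld t ∧ ev t ∈ V2 c ρ Q ∧ x ∈ phi t '' strip Q t} := by
    rintro x ⟨hx1, hx2⟩
    rcases cover (le_max_right M1 n0) (fun x hx m hm => hM1 x hx m ((le_max_left _ _).trans hm))
      hQ2 hx1 hx2 with h | h | h
    · exact Or.inl (Or.inl h)
    · exact Or.inl (Or.inr h)
    · exact Or.inr h
  have hb1 := vol_U1 (V1 u1 u2 c ρ Q) hQ2 (by
    classical
    intro v hv
    rw [V1, Finset.mem_filter, Finset.mem_product, Finset.mem_Icc] at hv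
    exact hv.1.1.1)
  have hb2 := vol_U2 (V2 c ρ Q) hQ2
  have hb3 := sum_V2 c hρ hQ2
  have hNs : C * N ≤ ρ ^ 2 / 4 * Q := by
    refine abs_le_of_sq_le_sq' ?_ (by positivity) |>.2
    have h1 : 16000 * C ^ 2 * u2 ≤ Q * ρ ^ 4 := by
      rw [div_le_iff₀ (by positivity)] at hQ4; exact hQ4
    have h2 : (C * N) ^ 2 ≤ C ^ 2 * (u2 * (1000 * Q)) := by
      rw [mul_pow]; exact mul_le_mul_of_nonneg_left hN2 (by positivity)
    have h3 : 16000 * C ^ 2 * u2 * Q ≤ Q * ρ ^ 4 * Q :=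
      mul_le_mul_of_nonneg_right h1 (by positivity)
    have h4 : (ρ ^ 2 / 4 * (Q : ℝ)) ^ 2 = Q * ρ ^ 4 * Q / 16 := by ring
    rw [h4]
    nlinarith
  have hv1 : 5 * ((V1 u1 u2 c ρ Q).card : ℝ) / (Q : ℝ) ^ 3 ≤ ρ ^ 2 / 2 := by
    rw [div_le_iff₀ (by positivity)]
    have h1 : (12 * (4 * ρ) ^ 2 * θ * u2 * (1000 * (Q : ℝ)) ^ 3) ≤
        12 * (4 * ρ) ^ 2 * (1 / 10 ^ 13) * (1000 * Q) ^ 3 := by
      have : 12 * (4 * ρ) ^ 2 * θ * u2 * (1000 * (Q : ℝ)) ^ 3 =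
        12 * (4 * ρ) ^ 2 * (θ * u2) * (1000 * Q) ^ 3 := by ring
      rw [this]
      gcongr
    have h2 : 12 * (4 * ρ) ^ 2 * (1 / 10 ^ 13) * (1000 * (Q : ℝ)) ^ 3 =
        192 / 10 ^ 4 * ρ ^ 2 * Q ^ 3 := by ring
    have h3 : 54 * (N : ℝ) ^ 3 * (1000 * Q) ≤ 54000000 * u2 * N * Q ^ 2 := by
      have : 54 * (N : ℝ) ^ 3 * (1000 * Q) = 54000 * N * Q * N ^ 2 := by ring
      rw [this]
      have h4 : 54000 * (N : ℝ) * Q * N ^ 2 ≤ 54000 * N * Q * (u2 * (1000 * Q)) :=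
        mul_le_mul_of_nonneg_left hN2 (by positivity)
      linarith
    have h5 : 10 * (54000000 * u2 * N * (Q : ℝ) ^ 2 + 6 * (1000 * Q) ^ 2 * N) =
        C * N * Q ^ 2 := by rw [hC]; ring
    have h6 : C * N * (Q : ℝ) ^ 2 ≤ ρ ^ 2 / 4 * Q * Q ^ 2 :=
      mul_le_mul_of_nonneg_right hNs (by positivity)
    have h7 : 0 ≤ ρ ^ 2 * (Q : ℝ) ^ 3 := by positivity
    nlinarith
  have hv2 : 5 * ∑ v ∈ V2 c ρ Q, 3 / (1000 * (Q : ℝ) * (v.1 : ℝ) ^ 2) ≤ ρ ^ 2 := by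
    have h1 : 12 / (1000 * (Q : ℝ)) ≤ 12 / 1000 * ρ ^ 2 := by
      rw [div_le_iff₀ (by positivity)]
      rw [div_le_iff₀ (by positivity)] at hQ3
      nlinarith
    have h2 : 0 ≤ ρ ^ 2 := by positivity
    linarith
  calc volume (EE u1 u2 n0 ∩ Metric.closedBall c ρ)
      ≤ volume (({x : ℝ × ℝ | (x ∈ Icc (0 : ℝ) 1 ×ˢ Icc (0 : ℝ) 1) ∧
          Q ≤ (conv x (M + 2)).1} ∪
      {x | ∃ t, Vld t ∧ ev t ∈ V1 u1 u2 c ρ Q ∧ x ∈ phi t '' sqr}) ∪
      {x | ∃ t, Vld t ∧ ev t ∈ V2 c ρ Q ∧ x ∈ phi t '' strip Q t}) := measure_mono hsub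
    _ ≤ (ENNReal.ofReal (ρ ^ 2 / 4) + ENNReal.ofReal (ρ ^ 2 / 2)) + ENNReal.ofReal (ρ ^ 2) := by
        refine (measure_union_le _ _).trans (add_le_add ((measure_union_le _ _).trans
          (add_le_add (hQ0 Q hQ0') ?_)) ?_)
        · exact hb1.trans (ENNReal.ofReal_le_ofReal hv1)
        · exact hb2.trans (ENNReal.ofReal_le_ofReal hv2)
    _ = ENNReal.ofReal (ρ ^ 2 / 4 + ρ ^ 2 / 2 + ρ ^ 2) := by
        rw [← ENNReal.ofReal_add (by positivity) (by positivity),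
          ← ENNReal.ofReal_add (by positivity) (by positivity)]
    _ ≤ ENNReal.ofReal (2 * ρ ^ 2) := by
        refine ENNReal.ofReal_le_ofReal ?_
        nlinarith [sq_nonneg ρ]

/-- Each set `EE` is null. -/
theorem null_EE {u1 u2 θ : ℝ} (hG : Gd u1 u2 θ) (n0 : ℕ) :
    volume (EE u1 u2 n0) = 0 := by
  have hd := IsUnifLocDoublingMeasure.ae_tendsto_measure_inter_div
    (volume : Measure (ℝ × ℝ)) (EE u1 u2 n0) 1
  have hF : ∀ᵐ x ∂(volume.restrict (EE u1 u2 n0)), False := by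
    filter_upwards [hd] with x hx
    set δ : ℕ → ℝ := fun j => 1 / ((j : ℝ) + 4) with hδ
    have hδpos : ∀ j, 0 < δ j := fun j => by simp only [hδ]; positivity
    have hδ4 : ∀ j, δ j ≤ 1 / 4 := fun j => by
      simp only [hδ]
      apply one_div_le_one_div_of_le (by norm_num)
      have : (0 : ℝ) ≤ j := by positivity
      linarith
    have hlim : Tendsto δ atTop (𝓝[>] 0) := by
      rw [tendsto_nhdsWithin_iff]
      refine ⟨?_, Eventually.of_forall hδpos⟩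
      have h1 := tendsto_one_div_add_atTop_nhds_zero_nat (𝕜 := ℝ)
      have h2 := (tendsto_add_atTop_iff_nat 3).2 h1
      refine h2.congr fun j => ?_
      simp only [hδ]; push_cast; ring_nf
    have ht := hx (fun _ : ℕ => x) δ hlim (Eventually.of_forall fun j => by
      rw [one_mul]; exact Metric.mem_closedBall_self (hδpos j).le)
    have hle : ∀ j, volume (EE u1 u2 n0 ∩ Metric.closedBall x (δ j)) /
        volume (Metric.closedBall x (δ j)) ≤ 1 / 2 := by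
      intro j
      have hvol : volume (Metric.closedBall x (δ j)) = ENNReal.ofReal (4 * δ j ^ 2) := by
        have : Metric.closedBall x (δ j) =
            Metric.closedBall x.1 (δ j) ×ˢ Metric.closedBall x.2 (δ j) :=
          (closedBall_prod_same x.1 x.2 (δ j)).symm
        rw [this, Measure.volume_eq_prod, Measure.prod_prod, Real.volume_closedBall,
          Real.volume_closedBall, ← ENNReal.ofReal_mul (by have := hδpos j; positivity)]
        congr 1; ring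
      rw [hvol]
      have h1 := local_est hG n0 x (hδpos j) (hδ4 j)
      have hpos := hδpos j
      refine ENNReal.div_le_of_le_mul ?_
      refine h1.trans (le_of_eq ?_)
      have e : (1 / 2 : ℝ≥0∞) = ENNReal.ofReal (1 / 2) := by
        rw [ENNReal.ofReal_div_of_pos (by norm_num)]; simp
      rw [e, ← ENNReal.ofReal_mul (by norm_num)]
      congr 1; ring
    have := le_of_tendsto' ht hle
    norm_num at this
  rw [ae_iff] at hF
  simp only [not_false_eq_true, ofPred_true] at hF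
  rwa [Measure.restrict_apply_univ] at hF

end Pool.Agent.U408.JP
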