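import Pool.Agent.U408.JP.Close

set_option autoImplicit false

open MeasureTheory Set Filter Topology
open scoped ENNReal

namespace Pool.Agent.U408.JP

lemma hfd (n n1 n2 q q1 q2 : ℝ) (z : ℝ × ℝ) (hD : q + q1 * z.1 + q2 * z.2 ≠ 0) :
    HasFDerivAt (fun z : ℝ × ℝ => (n + n1 * z.1 + n2 * z.2) / (q + q1 * z.1 + q2 * z.2))
      (((n1 * (q + q1 * z.1 + q2 * z.2) - (n + n1 * z.1 + n2 * z.2) * q1) /
          (q + q1 * z.1 + q2 * z.2) ^ 2) • ContinuousLinearMap.fst ℝ ℝ ℝ +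
       ((n2 * (q + q1 * z.1 + q2 * z.2) - (n + n1 * z.1 + n2 * z.2) * q2) /
          (q + q1 * z.1 + q2 * z.2) ^ 2) • ContinuousLinearMap.snd ℝ ℝ ℝ) z := by
  have hN : ∀ (n n1 n2 : ℝ), HasFDerivAt (fun z : ℝ × ℝ => n + n1 * z.1 + n2 * z.2)
      (n1 • ContinuousLinearMap.fst ℝ ℝ ℝ + n2 • ContinuousLinearMap.snd ℝ ℝ ℝ) z := by
    intro n n1 n2
    have h1 : HasFDerivAt (fun z : ℝ × ℝ => z.1) (ContinuousLinearMap.fst ℝ ℝ ℝ) z :=
      hasFDerivAt_fst
    have h2 : HasFDerivAt (fun z : ℝ × ℝ => z.2) (ContinuousLinearMap.snd ℝ ℝ ℝ) z :=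
      hasFDerivAt_snd
    exact ((h1.const_mul n1).const_add n).add (h2.const_mul n2)
  have h1 := hN n n1 n2
  have h2 := (hasDerivAt_inv hD).comp_hasFDerivAt z (hN q q1 q2)
  have h3 := h1.mul h2
  have e : (fun z : ℝ × ℝ => (n + n1 * z.1 + n2 * z.2) / (q + q1 * z.1 + q2 * z.2)) =
      ((fun z : ℝ × ℝ => n + n1 * z.1 + n2 * z.2) *
        ((fun y => y⁻¹) ∘ fun z : ℝ × ℝ => q + q1 * z.1 + q2 * z.2)) := by
    funext z; simp [div_eq_mul_inv]
  rw [e]
  refine h3.congr_fderiv ?_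
  ext
  · simp
    field_simp
    ring
  · simp
    field_simp
    ring

/-- projective map -/
noncomputable def pm (q q1 q2 p p1 p2 r r1 r2 : ℝ) (z : ℝ × ℝ) : ℝ × ℝ :=
  ((p + p1 * z.1 + p2 * z.2) / (q + q1 * z.1 + q2 * z.2),
   (r + r1 * z.1 + r2 * z.2) / (q + q1 * z.1 + q2 * z.2))

lemma vol_pm {q q1 q2 p p1 p2 r r1 r2 : ℝ} (hq : 0 < q) (hq1 : 0 ≤ q1) (hq2 : 0 ≤ q2)
    (hdet : q * (p1 * r2 - p2 * r1) - q1 * (p * r2 - p2 * r) + q2 * (p * r1 - p1 * r) = 1)
    {S : Set (ℝ × ℝ)} (hS : MeasurableSet S) (hS' : ∀ z ∈ S, 0 ≤ z.1 ∧ 0 ≤ z.2) :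
    volume (pm q q1 q2 p p1 p2 r r1 r2 '' S) ≤ ENNReal.ofReal (1 / q ^ 3) * volume S := by
  set L : ℝ × ℝ → (ℝ × ℝ →L[ℝ] ℝ × ℝ) := fun z =>
    (Matrix.toLin (.finTwoProd ℝ) (.finTwoProd ℝ)
    !![(p1 * (q + q1 * z.1 + q2 * z.2) - (p + p1 * z.1 + p2 * z.2) * q1) /
          (q + q1 * z.1 + q2 * z.2) ^ 2,
       (p2 * (q + q1 * z.1 + q2 * z.2) - (p + p1 * z.1 + p2 * z.2) * q2) /
          (q + q1 * z.1 + q2 * z.2) ^ 2;
       (r1 * (q + q1 * z.1 + q2 * z.2) - (r + r1 * z.1 + r2 * z.2) * q1) /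
          (q + q1 * z.1 + q2 * z.2) ^ 2,
       (r2 * (q + q1 * z.1 + q2 * z.2) - (r + r1 * z.1 + r2 * z.2) * q2) /
          (q + q1 * z.1 + q2 * z.2) ^ 2]).toContinuousLinearMap with hL
  have hDpos : ∀ z ∈ S, q ≤ q + q1 * z.1 + q2 * z.2 := by
    intro z hz
    obtain ⟨h1, h2⟩ := hS' z hz
    have : 0 ≤ q1 * z.1 := by positivity
    have : 0 ≤ q2 * z.2 := by positivity
    linarith
  have hder : ∀ z ∈ S, HasFDerivWithinAt (pm q q1 q2 p p1 p2 r r1 r2) (L z) S z := by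
    intro z hz
    have hD := hDpos z hz
    have hne : q + q1 * z.1 + q2 * z.2 ≠ 0 := by linarith
    rw [hL]
    simp only
    rw [Matrix.toLin_finTwoProd_toContinuousLinearMap]
    exact (HasFDerivAt.prodMk (hfd p p1 p2 q q1 q2 z hne)
      (hfd r r1 r2 q q1 q2 z hne)).hasFDerivWithinAt
  have hdetL : ∀ z ∈ S, ENNReal.ofReal |(L z).det| ≤ ENNReal.ofReal (1 / q ^ 3) := by
    intro z hz
    have hD := hDpos z hz
    have hne : q + q1 * z.1 + q2 * z.2 ≠ 0 := by linarith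
    have e : (L z).det = 1 / (q + q1 * z.1 + q2 * z.2) ^ 3 := by
      rw [hL]
      simp only [LinearMap.det_toContinuousLinearMap, LinearMap.det_toLin,
        Matrix.det_fin_two_of]
      field_simp
      linear_combination (q + q1 * z.1 + q2 * z.2) * hdet
    rw [e]
    refine ENNReal.ofReal_le_ofReal ?_
    have hpos : 0 < q + q1 * z.1 + q2 * z.2 := by linarith
    rw [abs_of_pos (by positivity)]
    exact one_div_le_one_div_of_le (by positivity) (pow_le_pow_left₀ hq.le hD 3)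
  calc volume (pm q q1 q2 p p1 p2 r r1 r2 '' S)
      ≤ ∫⁻ z in S, ENNReal.ofReal |(L z).det| :=
        addHaar_image_le_lintegral_abs_det_fderiv volume hS hder
    _ ≤ ∫⁻ z in S, ENNReal.ofReal (1 / q ^ 3) := setLIntegral_mono' hS hdetL
    _ = ENNReal.ofReal (1 / q ^ 3) * volume S := setLIntegral_const _ _

/-- The inverse branch attached to a word. -/
noncomputable def phi (t : List (ℕ × ℕ)) : ℝ × ℝ → ℝ × ℝ :=
  pm (ev t).1 (c1 t).1 (c2 t).1 (ev t).2.1 (c1 t).2.1 (c2 t).2.1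
    (ev t).2.2 (c1 t).2.2 (c2 t).2.2

lemma vol_phi {t : List (ℕ × ℕ)} (ht : Vld t) {S : Set (ℝ × ℝ)} (hS : MeasurableSet S)
    (hS' : ∀ z ∈ S, 0 ≤ z.1 ∧ 0 ≤ z.2) :
    volume (phi t '' S) ≤ ENNReal.ofReal (1 / ((ev t).1 : ℝ) ^ 3) * volume S := by
  have h1 := (vld_bound t ht).1
  refine vol_pm (by exact_mod_cast h1) (by positivity) (by positivity) ?_ hS hS'
  have := det_act t
  exact_mod_cast this

lemma phi_digits {x : ℝ × ℝ} (h : Adm x) (n : ℕ) :
    phi (digits x n) (jpT^[n] x) = x := by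
  obtain ⟨a1, a2, a3⟩ := act_iter n x h
  obtain ⟨l1, l2, l3⟩ := act_lin ((1 : ℝ), (jpT^[n] x).1, (jpT^[n] x).2) (digits x n)
  rw [l1] at a1
  rw [l1, l2] at a2
  rw [l1, l3] at a3
  simp only [one_mul] at a1 a2 a3
  unfold phi pm
  refine Prod.ext ?_ ?_
  · simp only
    rw [div_eq_iff (by nlinarith)]
    linarith
  · simp only
    rw [div_eq_iff (by nlinarith)]
    linarith

lemma sum_bound (V : Finset (ℕ × ℕ × ℕ)) (B : ℕ × ℕ × ℕ → ℝ) (hB : ∀ v ∈ V, 0 ≤ B v)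
    (A : List (ℕ × ℕ) → Set (ℝ × ℝ))
    (hA : ∀ t, Vld t → ev t ∈ V → volume (A t) ≤ ENNReal.ofReal (B (ev t))) :
    volume {x | ∃ t, Vld t ∧ ev t ∈ V ∧ x ∈ A t} ≤ ENNReal.ofReal (5 * ∑ v ∈ V, B v) := by
  classical
  have hb : ∀ v : ℕ × ℕ × ℕ, Bd v 5 := fun v => bd_all v.1 v.2.1 v.2.2
  choose S hS hS' using hb
  have hsub : {x | ∃ t, Vld t ∧ ev t ∈ V ∧ x ∈ A t} ⊆
      ⋃ v ∈ V, ⋃ t ∈ (S v).filter (fun t => Vld t ∧ ev t = v), A t := by
    rintro x ⟨t, h1, h2, h3⟩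
    simp only [mem_iUnion]
    refine ⟨ev t, h2, t, ?_, h3⟩
    rw [Finset.mem_filter]
    exact ⟨hS' _ t ⟨h1, rfl⟩, h1, rfl⟩
  calc volume {x | ∃ t, Vld t ∧ ev t ∈ V ∧ x ∈ A t}
      ≤ volume (⋃ v ∈ V, ⋃ t ∈ (S v).filter (fun t => Vld t ∧ ev t = v), A t) :=
        measure_mono hsub
    _ ≤ ∑ v ∈ V, volume (⋃ t ∈ (S v).filter (fun t => Vld t ∧ ev t = v), A t) :=
        measure_biUnion_finset_le _ _
    _ ≤ ∑ v ∈ V, ENNReal.ofReal (5 * B v) := by
        refine Finset.sum_le_sum fun v hv => ?_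
        calc volume (⋃ t ∈ (S v).filter (fun t => Vld t ∧ ev t = v), A t)
            ≤ ∑ t ∈ (S v).filter (fun t => Vld t ∧ ev t = v), volume (A t) :=
              measure_biUnion_finset_le _ _
          _ ≤ ∑ t ∈ (S v).filter (fun t => Vld t ∧ ev t = v), ENNReal.ofReal (B v) := by
              refine Finset.sum_le_sum fun t ht => ?_
              rw [Finset.mem_filter] at ht
              obtain ⟨-, h1, h2⟩ := ht
              have := hA t h1 (by rw [h2]; exact hv)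
              rw [h2] at this
              exact this
          _ = (((S v).filter (fun t => Vld t ∧ ev t = v)).card : ℝ≥0∞) *
                ENNReal.ofReal (B v) := by
              rw [Finset.sum_const, nsmul_eq_mul]
          _ ≤ 5 * ENNReal.ofReal (B v) := by
              gcongr
              have := (Finset.card_filter_le (S v) (fun t => Vld t ∧ ev t = v)).trans (hS v)
              exact_mod_cast this
          _ = ENNReal.ofReal (5 * B v) := by
              rw [ENNReal.ofReal_mul (by norm_num)]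
              norm_num
    _ = ENNReal.ofReal (∑ v ∈ V, 5 * B v) := by
        rw [ENNReal.ofReal_sum_of_nonneg]
        intro v hv
        have := hB v hv
        positivity
    _ = ENNReal.ofReal (5 * ∑ v ∈ V, B v) := by rw [Finset.mul_sum]

lemma measurable_jpT : Measurable jpT := by
  unfold jpT
  exact (measurable_fract.comp (measurable_snd.div measurable_fst)).prodMk
    (measurable_fract.comp (measurable_const.div measurable_fst))

lemma measurable_jpA : Measurable jpA :=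
  Nat.measurable_floor.comp (measurable_snd.div measurable_fst)

lemma measurable_jpB : Measurable jpB :=
  Nat.measurable_floor.comp (measurable_const.div measurable_fst)

lemma measurable_conv : ∀ n : ℕ, Measurable (fun x => conv x n)
  | 0 => by simp only [conv]; exact measurable_const
  | 1 => by simp only [conv]; exact measurable_const
  | 2 => by simp only [conv]; exact measurable_const
  | n + 3 => by
    have h0 := measurable_conv n
    have h1 := measurable_conv (n + 1)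
    have h2 := measurable_conv (n + 2)
    have hT : Measurable (jpT^[n]) := measurable_jpT.iterate n
    have hA := measurable_jpA.comp hT
    have hB := measurable_jpB.comp hT
    have hg : Measurable (fun w : (ℕ × ℕ) × (ℕ × ℕ × ℕ) × (ℕ × ℕ × ℕ) × (ℕ × ℕ × ℕ) =>
      w.1.1 • w.2.1 + w.1.2 • w.2.2.1 + w.2.2.2) := Measurable.of_discrete
    have := hg.comp ((hB.prodMk hA).prodMk (h2.prodMk (h1.prodMk h0)))
    have e : (fun x => conv x (n + 3)) =
      ((fun w : (ℕ × ℕ) × (ℕ × ℕ × ℕ) × (ℕ × ℕ × ℕ) × (ℕ × ℕ × ℕ) =>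
      w.1.1 • w.2.1 + w.1.2 • w.2.2.1 + w.2.2.2) ∘ fun x =>
        (((jpB ∘ jpT^[n]) x, (jpA ∘ jpT^[n]) x), (conv x (n + 2), (conv x (n + 1), conv x n)))) := by
      funext x
      simp only [Function.comp]
      rw [conv]
    rw [e]
    exact this

/-- The denominators at a fixed stage are tight. -/
lemma tight (M : ℕ) (ε : ℝ≥0∞) (hε : 0 < ε) : ∃ Q0 : ℕ, ∀ Q, Q0 ≤ Q →
    volume {x : ℝ × ℝ | (x ∈ Icc (0 : ℝ) 1 ×ˢ Icc (0 : ℝ) 1) ∧ Q ≤ (conv x M).1} ≤ ε := by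
  set s : ℕ → Set (ℝ × ℝ) := fun Q =>
    {x : ℝ × ℝ | (x ∈ Icc (0 : ℝ) 1 ×ˢ Icc (0 : ℝ) 1) ∧ Q ≤ (conv x M).1} with hs
  have hmeas : ∀ Q, MeasurableSet (s Q) := by
    intro Q
    have h1 : MeasurableSet (Icc (0 : ℝ) 1 ×ˢ Icc (0 : ℝ) 1) :=
      measurableSet_Icc.prod measurableSet_Icc
    have h2 : MeasurableSet {x : ℝ × ℝ | Q ≤ (conv x M).1} := by
      have : Measurable (fun x => (conv x M).1) := measurable_fst.comp (measurable_conv M)
      exact measurableSet_le measurable_const this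
    exact h1.inter h2
  have hanti : Antitone s := by
    intro Q Q' hQ x hx
    exact ⟨hx.1, hQ.trans hx.2⟩
  have hfin : ∃ Q, volume (s Q) ≠ ∞ := by
    refine ⟨0, ?_⟩
    have h1 : s 0 ⊆ Icc (0 : ℝ) 1 ×ˢ Icc (0 : ℝ) 1 := fun x hx => hx.1
    refine ((measure_mono h1).trans_lt ?_).ne
    exact (isCompact_Icc.prod isCompact_Icc).measure_lt_top
  have ht := tendsto_measure_iInter_atTop (fun Q => (hmeas Q).nullMeasurableSet) hanti hfin
  have he : (⋂ n, s n) = ∅ := by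
    rw [eq_empty_iff_forall_notMem]
    intro x hx
    rw [mem_iInter] at hx
    have := (hx ((conv x M).1 + 1)).2
    omega
  rw [he, measure_empty] at ht
  have h2 := (ENNReal.tendsto_atTop_zero.1 ht) ε hε
  obtain ⟨N, hN⟩ := h2
  exact ⟨N, fun Q hQ => hN Q hQ⟩

end Pool.Agent.U408.JP
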