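import Mathlib

set_option autoImplicit false

namespace Pool.Agent.U408.JP

variable {R : Type*}

/-- One backward Jacobi–Perron step: the digit `d = (a,b)` sends `(q,p,r)` to
`(b q + r, q, a q + p)`. -/
def stp [Semiring R] (d : ℕ × ℕ) (v : R × R × R) : R × R × R :=
  ((d.2 : R) * v.1 + v.2.2, v.1, (d.1 : R) * v.1 + v.2.1)

/-- The action of a word. -/
def act [Semiring R] (t : List (ℕ × ℕ)) (u : R × R × R) : R × R × R := t.foldr stp u

/-- The convergent of a word. -/
def ev (t : List (ℕ × ℕ)) : ℕ × ℕ × ℕ := act t (1, 0, 0)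

/-- Validity of words. -/
def Vld : List (ℕ × ℕ) → Prop
  | [] => True
  | d :: t => 1 ≤ d.2 ∧ d.1 ≤ d.2 ∧ (d.1 = d.2 → (ev t).2.1 ≤ (ev t).2.2) ∧ Vld t

@[simp] lemma ev_nil : ev [] = (1, 0, 0) := rfl

lemma ev_cons (d : ℕ × ℕ) (t : List (ℕ × ℕ)) :
    ev (d :: t) = (d.2 * (ev t).1 + (ev t).2.2, (ev t).1, d.1 * (ev t).1 + (ev t).2.1) := by
  simp [ev, act, stp]

lemma vld_bound : ∀ (t : List (ℕ × ℕ)), Vld t →
    1 ≤ (ev t).1 ∧ (ev t).2.1 ≤ (ev t).1 ∧ (ev t).2.2 ≤ (ev t).1
  | [], _ => by simp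
  | d :: t, h => by
    obtain ⟨h1, h2, h3, h4⟩ := h
    obtain ⟨i1, i2, i3⟩ := vld_bound t h4
    rw [ev_cons]
    simp only
    have hb : (ev t).1 ≤ d.2 * (ev t).1 := Nat.le_mul_of_pos_left _ h1
    refine ⟨by omega, by omega, ?_⟩
    rcases h2.lt_or_eq with h | h
    · have : (d.1 + 1) * (ev t).1 ≤ d.2 * (ev t).1 := Nat.mul_le_mul_right _ h
      rw [add_mul] at this
      omega
    · have := h3 h
      rw [h]; omega

/-- gcd of the three entries -/
def Cop (v : ℕ × ℕ × ℕ) : Prop := ∀ e : ℕ, e ∣ v.1 → e ∣ v.2.1 → e ∣ v.2.2 → e = 1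

lemma cop_ev : ∀ (t : List (ℕ × ℕ)), Cop (ev t)
  | [] => by
    intro e h1 _ _
    simpa using h1
  | d :: t => by
    intro e h1 h2 h3
    rw [ev_cons] at h1 h2 h3
    simp only at h1 h2 h3
    refine cop_ev t e h2 ?_ ?_
    · exact (Nat.dvd_add_right (Dvd.dvd.mul_left h2 _)).1 h3
    · exact (Nat.dvd_add_right (Dvd.dvd.mul_left h2 _)).1 h1

/-- at most `n` words satisfy `P` -/
def BdP (P : List (ℕ × ℕ) → Prop) (n : ℕ) : Prop :=
  ∃ S : Finset (List (ℕ × ℕ)), S.card ≤ n ∧ ∀ t, P t → t ∈ S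

/-- at most `n` valid words evaluate to `v` -/
def Bd (v : ℕ × ℕ × ℕ) (n : ℕ) : Prop := BdP (fun t => Vld t ∧ ev t = v) n

def Cn (d : ℕ × ℕ) (v : ℕ × ℕ × ℕ) (t' : List (ℕ × ℕ)) : Prop :=
  ∃ t, t' = d :: t ∧ Vld t ∧ ev t = v

lemma BdP.mono {P P' : List (ℕ × ℕ) → Prop} {n m : ℕ} (h : BdP P n) (hP : ∀ t, P' t → P t)
    (hn : n ≤ m) : BdP P' m := by
  obtain ⟨S, h1, h2⟩ := h
  exact ⟨S, h1.trans hn, fun t ht => h2 t (hP t ht)⟩

lemma BdP.or {P P1 P2 : List (ℕ × ℕ) → Prop} {n1 n2 : ℕ} (h1 : BdP P1 n1) (h2 : BdP P2 n2)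
    (h : ∀ t, P t → P1 t ∨ P2 t) : BdP P (n1 + n2) := by
  classical
  obtain ⟨S, h1, h1'⟩ := h1
  obtain ⟨S', h2, h2'⟩ := h2
  refine ⟨S ∪ S', (Finset.card_union_le _ _).trans (by omega), fun t ht => ?_⟩
  rw [Finset.mem_union]
  rcases h t ht with h | h
  · exact Or.inl (h1' t h)
  · exact Or.inr (h2' t h)

lemma Bd.cons {v : ℕ × ℕ × ℕ} {n : ℕ} (h : Bd v n) (d : ℕ × ℕ) : BdP (Cn d v) n := by
  classical
  obtain ⟨S, h1, h2⟩ := h
  refine ⟨S.image (fun t => d :: t), Finset.card_image_le.trans h1, ?_⟩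
  rintro t' ⟨t, rfl, ht1, ht2⟩
  exact Finset.mem_image.2 ⟨t, h2 t ⟨ht1, ht2⟩, rfl⟩

lemma BdP.of_false {P : List (ℕ × ℕ) → Prop} (h : ∀ t, ¬ P t) (n : ℕ) : BdP P n :=
  ⟨∅, by simp, fun t ht => absurd ht (h t)⟩

/-- inversion -/
lemma inv {t' : List (ℕ × ℕ)} {q p r : ℕ} (h : Vld t') (hv : ev t' = (q, p, r))
    (hp : p ≠ 0) : ∃ a b p' r' : ℕ, Cn (a, b) (p, p', r') t' ∧ 1 ≤ b ∧ a ≤ b ∧
      q = b * p + r' ∧ r = a * p + p' ∧ p' ≤ p ∧ r' ≤ p := by
  cases t' with
  | nil => simp at hv; omega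
  | cons d t =>
    obtain ⟨h1, h2, h3, h4⟩ := h
    obtain ⟨i1, i2, i3⟩ := vld_bound t h4
    rw [ev_cons] at hv
    simp only [Prod.mk.injEq] at hv
    obtain ⟨j1, j2, j3⟩ := hv
    refine ⟨d.1, d.2, (ev t).2.1, (ev t).2.2, ⟨t, rfl, h4, ?_⟩, h1, h2, ?_, ?_, ?_, ?_⟩
    · rw [← j2]
    · rw [← j1, ← j2]
    · rw [← j3, ← j2]
    · rw [← j2]; exact i2
    · rw [← j2]; exact i3

lemma bd_p0 {q r : ℕ} (h : (q, r) ≠ (1, 0)) (n : ℕ) : Bd (q, 0, r) n := by
  refine BdP.of_false (fun t ht => ?_) n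
  obtain ⟨ht1, ht2⟩ := ht
  cases t with
  | nil =>
    simp at ht2
    exact h (by rw [← ht2.1, ← ht2.2])
  | cons d t =>
    obtain ⟨h1, h2, h3, h4⟩ := ht1
    obtain ⟨i1, i2, i3⟩ := vld_bound t h4
    rw [ev_cons] at ht2
    simp only [Prod.mk.injEq] at ht2
    omega

lemma bd_100 : Bd (1, 0, 0) 1 := by
  refine ⟨{[]}, by simp, fun t ht => ?_⟩
  obtain ⟨ht1, ht2⟩ := ht
  cases t with
  | nil => simp
  | cons d t =>
    obtain ⟨h1, h2, h3, h4⟩ := ht1
    obtain ⟨i1, i2, i3⟩ := vld_bound t h4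
    rw [ev_cons] at ht2
    simp only [Prod.mk.injEq] at ht2
    omega

lemma bd_110 : Bd (1, 1, 0) 1 := by
  refine (bd_100.cons (0, 1)).mono ?_ le_rfl
  rintro t ⟨h1, h2⟩
  obtain ⟨a, b, p', r', hc, hb, hab, hq, hr, hp', hr'⟩ := inv h1 h2 (by norm_num)
  obtain rfl : b = 1 := by omega
  obtain rfl : a = 0 := by omega
  obtain rfl : p' = 0 := by omega
  obtain rfl : r' = 0 := by omega
  exact hc

lemma bd_111 : Bd (1, 1, 1) 2 := by
  refine BdP.or (bd_110.cons (0, 1)) (bd_100.cons (1, 1)) ?_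
  rintro t ⟨h1, h2⟩
  obtain ⟨a, b, p', r', hc, hb, hab, hq, hr, hp', hr'⟩ := inv h1 h2 (by norm_num)
  obtain rfl : b = 1 := by omega
  obtain rfl : r' = 0 := by omega
  rcases Nat.eq_zero_or_pos a with h | h
  · subst h
    obtain rfl : p' = 1 := by omega
    exact Or.inl hc
  · obtain rfl : a = 1 := by omega
    obtain rfl : p' = 0 := by omega
    exact Or.inr hc

lemma bd_p1 (q r : ℕ) : Bd (q, 1, r) 4 := by
  have h1 : BdP (fun t => Cn (r, q) (1, 0, 0) t ∨ Cn (r - 1, q) (1, 1, 0) t) (1 + 1) :=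
    BdP.or (bd_100.cons (r, q)) (bd_110.cons (r - 1, q)) (fun t h => h)
  refine BdP.or h1 (bd_111.cons (r - 1, q - 1)) ?_
  rintro t ⟨h1, h2⟩
  obtain ⟨a, b, p', r', hc, hb, hab, hq, hr, hp', hr'⟩ := inv h1 h2 (by norm_num)
  have hp2 : p' = 0 ∨ p' = 1 := by omega
  have hr2 : r' = 0 ∨ r' = 1 := by omega
  rcases hp2 with rfl | rfl <;> rcases hr2 with rfl | rfl
  · left; left
    have e1 : r = a := by omega
    have e2 : q = b := by omega
    rw [e1, e2]; exact hc
  · exfalso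
    obtain ⟨t0, -, k1, k2⟩ := hc
    obtain ⟨S, hS, hS'⟩ := bd_p0 (q := 1) (r := 1) (by simp) 0
    have := hS' t0 ⟨k1, k2⟩
    simp only [Nat.le_zero, Finset.card_eq_zero] at hS
    simp [hS] at this
  · left; right
    have e1 : r - 1 = a := by omega
    have e2 : q = b := by omega
    rw [e1, e2]; exact hc
  · right
    have e1 : r - 1 = a := by omega
    have e2 : q - 1 = b := by omega
    rw [e1, e2]; exact hc

lemma not_p0 {t : List (ℕ × ℕ)} {s r' : ℕ} (hs : s ≠ 1) (h1 : Vld t) (h2 : ev t = (s, 0, r')) :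
    False := by
  obtain ⟨S, hS, hS'⟩ := bd_p0 (q := s) (r := r') (by simp [hs]) 0
  have := hS' t ⟨h1, h2⟩
  simp only [Nat.le_zero, Finset.card_eq_zero] at hS
  simp [hS] at this

/-- `(q,s,0)`, `s ≥ 1` -/
lemma bd_r0 {q s : ℕ} (hs : s ≠ 0) : Bd (q, s, 0) 1 := by
  refine (bd_100.cons (0, q)).mono ?_ le_rfl
  rintro t ⟨h1, h2⟩
  obtain ⟨a, b, p', r', hc, hb, hab, hq, hr, hp', hr'⟩ := inv h1 h2 hs
  have e1 : a * s = 0 := by omega
  have e2 : p' = 0 := by omega
  have e3 : a = 0 := by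
    rcases Nat.mul_eq_zero.1 e1 with h | h
    · exact h
    · exact absurd h hs
  subst e2 e3
  by_cases hs1 : s = 1
  · subst hs1
    by_cases hr0 : r' = 0
    · subst hr0
      have : q = b := by omega
      rw [this]; exact hc
    · exfalso
      obtain ⟨t0, -, k1, k2⟩ := hc
      obtain ⟨S, hS, hS'⟩ := bd_p0 (q := 1) (r := r') (by simp [hr0]) 0
      have := hS' t0 ⟨k1, k2⟩
      simp only [Nat.le_zero, Finset.card_eq_zero] at hS
      simp [hS] at this
  · exfalso
    obtain ⟨t0, -, k1, k2⟩ := hc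
    exact not_p0 hs1 k1 k2

/-- `(p,p,r)`, `0 < r < p` -/
lemma bd_pp {p r : ℕ} (hr0 : r ≠ 0) (hrp : r < p) : Bd (p, p, r) 1 := by
  refine ((bd_r0 (q := p) hr0).cons (0, 1)).mono ?_ le_rfl
  rintro t ⟨h1, h2⟩
  obtain ⟨a, b, p', r', hc, hb, hab, hq, hr, hp', hr'⟩ := inv h1 h2 (by omega)
  have e1 : b = 1 := by
    by_contra hb1
    have : 2 * p ≤ b * p := Nat.mul_le_mul_right _ (by omega)
    omega
  subst e1
  have e2 : a = 0 := by
    by_contra ha
    have : 1 * p ≤ a * p := Nat.mul_le_mul_right _ (by omega)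
    omega
  subst e2
  obtain rfl : r' = 0 := by omega
  obtain rfl : r = p' := by omega
  exact hc

/-- `(s,t,t)` with `t ≥ 1` -/
lemma bd_tt {s u : ℕ} (hu : u ≠ 0) : Bd (s, u, u) 4 := by
  by_cases hu1 : u = 1
  · subst hu1; exact bd_p1 _ _
  by_cases hd : u ∣ s
  · refine BdP.of_false (fun t ht => ?_) 4
    have := cop_ev t u
    rw [ht.2] at this
    exact hu1 (this hd (dvd_refl _) (dvd_refl _))
  have hmod : s % u ≠ 0 := fun h => hd (Nat.dvd_of_mod_eq_zero h)
  refine ((bd_pp (p := u) (r := s % u) hmod (Nat.mod_lt _ (by omega))).cons (0, s / u)).mono ?_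
    (by norm_num)
  rintro t ⟨h1, h2⟩
  obtain ⟨a, b, p', r', hc, hb, hab, hq, hr, hp', hr'⟩ := inv h1 h2 hu
  have ea : a = 0 := by
    by_contra ha
    have : 1 * u ≤ a * u := Nat.mul_le_mul_right _ (by omega)
    obtain rfl : p' = 0 := by omega
    obtain ⟨t0, -, k1, k2⟩ := hc
    exact not_p0 hu1 k1 k2
  subst ea
  obtain rfl : u = p' := by omega
  have hr2 : r' < u := by
    rcases hr'.lt_or_eq with h | h
    · exact h
    · exfalso; exact hd ⟨b + 1, by rw [hq, h]; ring⟩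
  have e1 : s / u = b := by
    rw [hq, mul_comm, Nat.mul_add_div (by omega), Nat.div_eq_of_lt hr2]; omega
  have e2 : s % u = r' := by
    rw [hq, mul_comm, Nat.mul_add_mod, Nat.mod_eq_of_lt hr2]
  rw [e1, e2]; exact hc

/-- `(p,s,p)` with `s ≥ 1` -/
lemma bd_psp {p s : ℕ} (hs : s ≠ 0) : Bd (p, s, p) 4 := by
  by_cases hs1 : s = 1
  · subst hs1; exact bd_p1 _ _
  by_cases hd : s ∣ p
  · refine BdP.of_false (fun t ht => ?_) 4
    have := cop_ev t s
    rw [ht.2] at this
    exact hs1 (this hd (dvd_refl _) hd)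
  have hmod : p % s ≠ 0 := fun h => hd (Nat.dvd_of_mod_eq_zero h)
  refine ((bd_tt (s := s) (u := p % s) hmod).cons (p / s, p / s)).mono ?_ le_rfl
  rintro t ⟨h1, h2⟩
  obtain ⟨a, b, p', r', hc, hb, hab, hq, hr, hp', hr'⟩ := inv h1 h2 hs
  have hr2 : r' < s := by
    rcases hr'.lt_or_eq with h | h
    · exact h
    · exfalso; exact hd ⟨b + 1, by rw [hq, h]; ring⟩
  have hp2 : p' < s := by
    rcases hp'.lt_or_eq with h | h
    · exact h
    · exfalso; exact hd ⟨a + 1, by rw [hr, h]; ring⟩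
  have e1 : p / s = b := by
    rw [hq, mul_comm, Nat.mul_add_div (by omega), Nat.div_eq_of_lt hr2]; omega
  have e2 : p % s = r' := by
    rw [hq, mul_comm, Nat.mul_add_mod, Nat.mod_eq_of_lt hr2]
  have e3 : p / s = a := by
    rw [hr, mul_comm, Nat.mul_add_div (by omega), Nat.div_eq_of_lt hp2]; omega
  have e4 : p % s = p' := by
    rw [hr, mul_comm, Nat.mul_add_mod, Nat.mod_eq_of_lt hp2]
  have e5 : Cn (a, b) (s, p', r') t = Cn (p / s, p / s) (s, p % s, p % s) t := by
    rw [← e1, ← e2, ← e3, ← e4]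
  rw [← e5]; exact hc

theorem bd_all : ∀ (q p r : ℕ), Bd (q, p, r) 5 := by
  intro q
  induction q using Nat.strong_induction_on with
  | _ q ih =>
    intro p r
    by_cases hp0 : p = 0
    · subst hp0
      by_cases h : (q, r) = (1, 0)
      · simp only [Prod.mk.injEq] at h
        rw [h.1, h.2]
        exact bd_100.mono (fun t h => h) (by norm_num)
      · exact bd_p0 h 5
    by_cases hp1 : p = 1
    · subst hp1; exact (bd_p1 q r).mono (fun t h => h) (by norm_num)
    by_cases hq : p ∣ q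
    · by_cases hr : p ∣ r
      · refine BdP.of_false (fun t ht => ?_) 5
        have := cop_ev t p
        rw [ht.2] at this
        exact hp1 (this hq (dvd_refl _) hr)
      · have hmod : r % p ≠ 0 := fun h => hr (Nat.dvd_of_mod_eq_zero h)
        refine (BdP.or ((bd_r0 (q := p) (s := r % p) hmod).cons (r / p, q / p))
          ((bd_psp (p := p) (s := r % p) hmod).cons (r / p, q / p - 1)) ?_ : BdP _ (1 + 4))
        rintro t ⟨h1, h2⟩
        obtain ⟨a, b, p', r', hc, hb, hab, hq', hr', hp', hr''⟩ := inv h1 h2 hp0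
        have hp2 : p' < p := by
          rcases hp'.lt_or_eq with h | h
          · exact h
          · exfalso; exact hr ⟨a + 1, by rw [hr', h]; ring⟩
        have e3 : r / p = a := by
          rw [hr', mul_comm, Nat.mul_add_div (by omega), Nat.div_eq_of_lt hp2]; omega
        have e4 : r % p = p' := by
          rw [hr', mul_comm, Nat.mul_add_mod, Nat.mod_eq_of_lt hp2]
        have hd : p ∣ r' := by
          rw [hq'] at hq
          exact (Nat.dvd_add_right (Dvd.intro_left b rfl)).1 hq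
        rcases Nat.eq_zero_or_pos r' with h0 | h0
        · left
          subst h0
          have e1 : q / p = b := by
            rw [hq', add_zero, Nat.mul_div_cancel _ (by omega)]
          rw [e1, e3, e4]; exact hc
        · right
          have e0 : r' = p := le_antisymm hr'' (Nat.le_of_dvd h0 hd)
          have e1 : q / p = b + 1 := by
            rw [hq', e0]
            rw [show b * p + p = (b + 1) * p by ring, Nat.mul_div_cancel _ (by omega)]
          rw [e1, e3, e4, Nat.add_sub_cancel]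
          rw [e0] at hc; exact hc
    · have hmodq : q % p ≠ 0 := fun h => hq (Nat.dvd_of_mod_eq_zero h)
      by_cases hr : p ∣ r
      · refine ((bd_pp (p := p) (r := q % p) hmodq (Nat.mod_lt _ (by omega))).cons
          (r / p - 1, q / p)).mono ?_ (by norm_num)
        rintro t ⟨h1, h2⟩
        obtain ⟨a, b, p', r', hc, hb, hab, hq', hr', hp', hr''⟩ := inv h1 h2 hp0
        have hr2 : r' < p := by
          rcases hr''.lt_or_eq with h | h
          · exact h
          · exfalso; exact hq ⟨b + 1, by rw [hq', h]; ring⟩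
        have e1 : q / p = b := by
          rw [hq', mul_comm, Nat.mul_add_div (by omega), Nat.div_eq_of_lt hr2]; omega
        have e2 : q % p = r' := by
          rw [hq', mul_comm, Nat.mul_add_mod, Nat.mod_eq_of_lt hr2]
        have hd : p ∣ p' := by
          rw [hr'] at hr
          exact (Nat.dvd_add_right (Dvd.intro_left a rfl)).1 hr
        rcases Nat.eq_zero_or_pos p' with h0 | h0
        · exfalso
          subst h0
          obtain ⟨t0, -, k1, k2⟩ := hc
          exact not_p0 hp1 k1 k2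
        · have e0 : p' = p := le_antisymm hp' (Nat.le_of_dvd h0 hd)
          have e3 : r / p = a + 1 := by
            rw [hr', e0]
            rw [show a * p + p = (a + 1) * p by ring, Nat.mul_div_cancel _ (by omega)]
          rw [e1, e3, e2, Nat.add_sub_cancel]
          rw [e0] at hc; exact hc
      · by_cases hpq : p < q
        · refine ((ih p hpq (r % p) (q % p)).cons (r / p, q / p)).mono ?_ le_rfl
          rintro t ⟨h1, h2⟩
          obtain ⟨a, b, p', r', hc, hb, hab, hq', hr', hp', hr''⟩ := inv h1 h2 hp0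
          have hr2 : r' < p := by
            rcases hr''.lt_or_eq with h | h
            · exact h
            · exfalso; exact hq ⟨b + 1, by rw [hq', h]; ring⟩
          have e1 : q / p = b := by
            rw [hq', mul_comm, Nat.mul_add_div (by omega), Nat.div_eq_of_lt hr2]; omega
          have e2 : q % p = r' := by
            rw [hq', mul_comm, Nat.mul_add_mod, Nat.mod_eq_of_lt hr2]
          have hp2 : p' < p := by
            rcases hp'.lt_or_eq with h | h
            · exact h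
            · exfalso; exact hr ⟨a + 1, by rw [hr', h]; ring⟩
          have e3 : r / p = a := by
            rw [hr', mul_comm, Nat.mul_add_div (by omega), Nat.div_eq_of_lt hp2]; omega
          have e4 : r % p = p' := by
            rw [hr', mul_comm, Nat.mul_add_mod, Nat.mod_eq_of_lt hp2]
          rw [e1, e2, e3, e4]; exact hc
        · refine BdP.of_false (fun t ht => ?_) 5
          have hb := (vld_bound t ht.1).2.1
          rw [ht.2] at hb
          simp only at hb
          have : p = q := by omega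
          exact hq (this ▸ dvd_refl _)

end Pool.Agent.U408.JP
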